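import Pool.Agent.Lib.MP_9cc147_pr.Cx.Z.Set

/-! Local operators, the odd extension and the elementary properties of the noise. -/

open scoped Classical Topology
open Finset MeasureTheory ProbabilityTheory Filter

noncomputable section
namespace Pool.Agent.Lib.MP_9cc147_pr.Cx

section
variable {r t : ℕ} {A B : Module.End ℝ (P → ℝ)}

theorem ZOp.mono (h : ZOp r A) (k : r ≤ t) : ZOp t A :=
  ⟨fun f g p e => h.loc f g p fun y hy => e y
    ⟨hy.1.trans (by exact_mod_cast k), hy.2.trans (by exact_mod_cast k)⟩, h.sym, h.mea⟩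

theorem zo_one : ZOp 0 (1 : Module.End ℝ (P → ℝ)) :=
  ⟨fun _ _ p e => e p (by simp [nr]), fun _ _ _ => rfl, measurable_id⟩

theorem ZOp.mul (h : ZOp r A) (k : ZOp t B) : ZOp (r + t) (A * B) := by
  refine ⟨fun f g p e => h.loc _ _ p fun y hy => k.loc f g y fun z hz => e z ?_,
    fun g c f => ?_, h.mea.comp k.mea⟩
  · obtain ⟨a, b⟩ := hy
    obtain ⟨c, d⟩ := hz
    constructor <;> push_cast
    · exact (abs_sub_le _ y.1 _).trans (add_le_add a c)
    · exact (abs_sub_le _ y.2 _).trans (add_le_add b d)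
  · rw [Module.End.mul_apply, k.sym, h.sym]; rfl

theorem ZOp.sub (h : ZOp r A) (k : ZOp r B) : ZOp r (A - B) := by
  refine ⟨fun f g p e => ?_, fun g c f => ?_, h.mea.sub k.mea⟩
  · simp only [LinearMap.sub_apply, Pi.sub_apply, h.loc f g p e, k.loc f g p e]
  · simp only [LinearMap.sub_apply, h.sym, k.sym]; rfl

theorem ZOp.smul (h : ZOp r A) (a : ℝ) : ZOp r (a • A) := by
  refine ⟨fun f g p e => ?_, fun g c f => ?_, h.mea.const_smul a⟩
  · simp only [LinearMap.smul_apply, Pi.smul_apply, h.loc f g p e]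
  · simp only [LinearMap.smul_apply, h.sym]; rfl

theorem ZOp.pow (h : ZOp r A) (k : ℕ) : ZOp (k * r) (A ^ k) := by
  induction k with
  | zero => simpa using zo_one
  | succ k ih => rw [pow_succ, add_mul, one_mul]; exact ih.mul h

end

theorem ZOp.dir {r n : ℕ} {A : Module.End ℝ (P → ℝ)} (h : ZOp r A) {f : P → ℝ} (hf : Dir n f) :
    Dir n (A f) := by
  have a : ∀ (g : Sy) (c : P) (e : ℝ), f ∘ vm g c = e • f → ∀ p, A f (vm g c p) = e * A f p :=
    fun g c e k p => by
      have := congrFun (h.sym g c f) p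
      rw [k, map_smul] at this
      exact this.symm
  intro p
  refine ⟨?_, ?_, ?_, ?_⟩
  · simpa [vm] using a ⟨false, true, false⟩ 0 (-1) (by ext y; simpa [vm] using (hf y).1) p
  · simpa [vm] using a ⟨false, false, true⟩ 0 (-1) (by ext y; simpa [vm] using (hf y).2.1) p
  · simpa [vm] using a ⟨false, false, false⟩ (2 * n, 0) 1
      (by ext y; simpa [vm] using (hf y).2.2.1) p
  · simpa [vm] using a ⟨false, false, false⟩ (0, 2 * n) 1
      (by ext y; simpa [vm] using (hf y).2.2.2) p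

theorem zop_lap : ZOp 1 Lap := by
  refine ⟨fun f g p e => ?_, fun g c f => ?_, measurable_pi_lambda _ fun p => ?_⟩
  · show 4 * f p - ∑ d, f (p + dir d) = 4 * g p - ∑ d, g (p + dir d)
    rw [e p (by simp [nr])]
    congr 1
    exact sum_congr rfl fun d _ => e _ (by fin_cases d <;> simp [nr, dir])
  · ext ⟨x, y⟩
    obtain ⟨a, b, d⟩ := g
    obtain ⟨c1, c2⟩ := c
    show 4 * f _ - ∑ d, f _ = 4 * f _ - ∑ d, f _
    congr 1
    cases a <;> cases b <;> cases d <;> simp [vm, dir, Fin.sum_univ_four] <;> ring_nf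
  · show Measurable fun f : P → ℝ => 4 * f p - ∑ d, f (p + dir d)
    fun_prop

theorem zo_tc (k : ℕ) : ZOp (2 ^ k) (Tc k) := by
  induction k with
  | zero => exact (zo_one.mono (by simp)).sub (zop_lap.smul _)
  | succ k ih => rw [pow_succ, mul_two]; exact ((ih.mul ih).smul _).sub (zo_one.mono (by simp))

theorem zo_pn (k : ℕ) : ZOp (2 ^ k) (Pn k) := by
  induction k with
  | zero => exact zo_one.mono (by simp)
  | succ k ih => rw [pow_succ, mul_two]; exact ih.mul (zo_tc k)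

theorem zop_pn5 (k : ℕ) : ZOp (5 * 2 ^ k) (Pn k ^ 5) := by
  exact (zo_pn k).pow 5

theorem zop_sq (k : ℕ) {i : ℕ} (hi : i < 5) : ZOp (11 * 2 ^ k) (Sq k i) := by
  refine (((((zo_one.mono zero_le_one).sub (zop_lap.smul _)).mul ((zo_pn k).pow 6)).mul
    ((zo_tc k).pow i)).smul _).mono ?_
  have : 1 ≤ 2 ^ k := Nat.one_le_two_pow
  nlinarith

theorem z_rng {L j k : ℕ} (hk : k < lev L (j + 1)) : 11 * 2 ^ k ≤ L ^ (j + 1) / 8 := by
  have h0 : L ^ (j + 1) / 100 ≠ 0 := fun h => by simp [lev, h] at hk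
  have h1 : 2 ^ (k + 1) ≤ L ^ (j + 1) / 100 := Nat.pow_le_of_le_log h0 hk
  rw [pow_succ] at h1
  omega

theorem zo_pow {A : Module.End ℝ (P → ℝ)} {f : P → ℝ} {x : ℝ} (h : A f = x • f) (k : ℕ) :
    (A ^ k) f = x ^ k • f := by
  induction k with
  | zero => simp
  | succ k ih => rw [pow_succ, Module.End.mul_apply, h, map_smul, ih, smul_smul, pow_succ']

theorem zo_tce {f : P → ℝ} {x : ℝ} (h : Lap f = x • f) (k : ℕ) : Tc k f = ztc k x • f := by
  induction k with
  | zero => simp only [Tc, ztc, LinearMap.sub_apply, LinearMap.smul_apply, h]; ext; simp; ring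
  | succ k ih =>
    simp only [Tc, ztc, LinearMap.sub_apply, LinearMap.smul_apply, Module.End.mul_apply, ih,
      map_smul]
    ext; simp; ring

theorem zo_pne {f : P → ℝ} {x : ℝ} (h : Lap f = x • f) (k : ℕ) : Pn k f = zpn k x • f := by
  induction k with
  | zero => simp [Pn, zpn]
  | succ k ih =>
    rw [Pn, zpn, Module.End.mul_apply, zo_tce h, map_smul, ih, smul_smul, mul_comm]

theorem zpn5_eig {f : P → ℝ} {x : ℝ} (h : Lap f = x • f) (k : ℕ) :
    (Pn k ^ 5) f = zpn k x ^ 5 • f := by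
  exact zo_pow (zo_pne h k) 5

theorem zsq_eig {f : P → ℝ} {x : ℝ} (h : Lap f = x • f) (k i : ℕ) : Sq k i f = zsq k i x • f := by
  simp only [Sq, zsq, LinearMap.smul_apply, Module.End.mul_apply, zo_pow (zo_tce h k), map_smul,
    zo_pow (zo_pne h k), LinearMap.sub_apply, h]
  ext; simp; ring

theorem zo_mod {N x r : ℤ} (k : ℤ) (h0 : 0 ≤ r) (h1 : r < N) (h : x = r + N * k) :
    x % N = r := by
  rw [h, Int.add_mul_emod_self_left, Int.emod_eq_of_lt h0 h1]

theorem zfold_mid {n : ℕ} {x : ℤ} (h0 : 0 ≤ x) (h1 : x ≤ n) (hn : 1 ≤ n) : fold n x = x ∧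
    sg n x = if x = 0 ∨ x = n then 0 else 1 := by
  have : x % (2 * n) = x := Int.emod_eq_of_lt h0 (by omega)
  simp only [fold, sg, this, if_pos h1, true_and]
  split_ifs <;> first | rfl | omega

theorem zfold_neg (n : ℕ) (x : ℤ) (hn : 1 ≤ n) : fold n (-x) = fold n x ∧ sg n (-x) = -sg n x := by
  have a := Int.emod_nonneg x (show (2 * n : ℤ) ≠ 0 by omega)
  have b := Int.emod_lt_of_pos x (show (0 : ℤ) < 2 * n by omega)
  have c := Int.emod_add_mul_ediv x (2 * n)
  unfold fold sg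
  by_cases h : x % (2 * n) = 0
  · rw [zo_mod (x := -x) (r := 0) (-(x / (2 * n))) le_rfl (by omega) (by linarith), h]; simp
  · rw [zo_mod (x := -x) (r := 2 * n - x % (2 * n)) (-(x / (2 * n)) - 1) (by omega) (by omega)
      (by linarith)]
    constructor <;> split_ifs <;> first | omega | simp

theorem zo_per (n : ℕ) (x : ℤ) : fold n (x + 2 * n) = fold n x ∧ sg n (x + 2 * n) = sg n x := by
  simp only [fold, sg, Int.add_emod_right, and_self]

theorem zo_rng {n : ℕ} (hn : 1 ≤ n) (x : ℤ) : 0 ≤ fold n x ∧ fold n x ≤ n := by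
  have a := Int.emod_nonneg x (show (2 * n : ℤ) ≠ 0 by omega)
  have b := Int.emod_lt_of_pos x (show (0 : ℤ) < 2 * n by omega)
  unfold fold
  split_ifs <;> omega

theorem zfold_ref (n : ℕ) (x : ℤ) (hn : 1 ≤ n) :
    fold n (2 * n - x) = fold n x ∧ sg n (2 * n - x) = -sg n x := by
  have := zfold_neg n x hn
  have e := zo_per n (-x)
  rw [show -x + 2 * n = 2 * n - x by ring] at e
  exact ⟨e.1.trans this.1, e.2.trans this.2⟩

theorem zfold_lip {n : ℕ} {q : ℤ} (h0 : 0 ≤ q) (h1 : q ≤ n) (hn : 1 ≤ n) (x : ℤ) :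
    |fold n x - q| ≤ |x - q| := by
  have r := zo_rng hn x
  have : fold n x = x ∨ (x < 0 ∧ fold n x ≤ -x) ∨ (n < x ∧ 2 * n - x ≤ fold n x) := by
    by_cases a : x < 0
    · refine .inr (.inl ⟨a, ?_⟩)
      by_cases b : -x ≤ n
      · rw [← (zfold_neg n x hn).1, (zfold_mid (by omega) b hn).1]
      · omega
    · by_cases b : x ≤ n
      · exact .inl (zfold_mid (by omega) b hn).1
      · refine .inr (.inr ⟨by omega, ?_⟩)
        by_cases c : 0 ≤ 2 * n - x
        · rw [← (zfold_ref n x hn).1, (zfold_mid c (by omega) hn).1]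
        · omega
  rw [abs_le]
  rcases abs_cases (x - q) with e | e <;> omega

theorem zext_dir {n : ℕ} (hn : 1 ≤ n) (g : P → ℝ) : Dir n (ext n g) := by
  intro p
  simp [ext, zfold_neg n _ hn, zo_per]

theorem zext_inn {n : ℕ} (g : P → ℝ) {p : P} (hp : p ∈ inn n) : ext n g p = g p := by
  simp only [inn, mem_product, mem_Ioo] at hp
  have hn : 1 ≤ n := by omega
  obtain ⟨a, b⟩ := zfold_mid hp.1.1.le hp.1.2.le hn
  obtain ⟨c, d⟩ := zfold_mid hp.2.1.le hp.2.2.le hn
  rw [if_neg (by omega)] at b d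
  simp [ext, a, b, c, d]

theorem zo_zero {n : ℕ} {f : P → ℝ} (hf : Dir n f) {x y : ℤ}
    (h : x = 0 ∨ x = n ∨ y = 0 ∨ y = n) : f (x, y) = 0 := by
  have a := (hf (x, y)).1
  have b := (hf (x, y)).2.1
  have c := (hf (-x, y)).2.2.1
  have d := (hf (x, -y)).2.2.2
  dsimp only at a b c d
  rcases h with rfl | rfl | rfl | rfl
  · rw [neg_zero] at a; linarith
  · rw [show -(n : ℤ) + 2 * n = n by ring] at c; linarith
  · rw [neg_zero] at b; linarith
  · rw [show -(n : ℤ) + 2 * n = n by ring] at d; linarith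

theorem zdir_ring {n : ℕ} {f : P → ℝ} (hf : Dir n f) {p : P} (hp : p ∈ ring n) : f p = 0 := by
  obtain ⟨x, y⟩ := p
  simp only [ring, sqr, inn, Finset.mem_sdiff, mem_product, mem_Ioo, mem_Icc] at hp
  exact zo_zero hf (by omega)

theorem zo_one' {n : ℕ} (hn : 1 ≤ n) {φ : ℤ → ℝ} (h1 : ∀ x, φ (-x) = -φ x)
    (h2 : ∀ x, φ (x + 2 * n) = φ x) (x : ℤ) : φ x = sg n x * φ (fold n x) := by
  have per : Function.Periodic φ (2 * n) := h2
  have a := Int.emod_nonneg x (show (2 * n : ℤ) ≠ 0 by omega)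
  have b := Int.emod_lt_of_pos x (show (0 : ℤ) < 2 * n by omega)
  have c : φ x = φ (x % (2 * n)) := by
    have := per.int_mul (x / (2 * n)) (x % (2 * n))
    rwa [Int.cast_id, mul_comm (x / _), Int.emod_add_mul_ediv] at this
  have z0 : φ 0 = 0 := by have := h1 0; rw [neg_zero] at this; linarith
  have zn : φ n = 0 := by
    have := h2 (-n); rw [show -(n : ℤ) + 2 * n = n by ring, h1] at this; linarith
  rw [c]
  unfold sg fold
  generalize x % (2 * n) = r at *
  split_ifs with e e1 e2 e3 e4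
  · rcases e with rfl | rfl <;> simp [z0, zn]
  · omega
  · simp
  · omega
  · omega
  · rw [show 2 * n - r = -r + 2 * n by ring, h2, h1]; ring

theorem zo_fold {n : ℕ} (hn : 1 ≤ n) {f : P → ℝ} (hf : Dir n f) (x y : ℤ) :
    f (x, y) = sg n x * sg n y * f (fold n x, fold n y) := by
  rw [zo_one' hn (φ := fun x => f (x, y)) (fun x => (hf (x, y)).1) (fun x => (hf (x, y)).2.2.1) x,
    zo_one' hn (φ := fun y => f (fold n x, y)) (fun y => (hf (_, y)).2.1)
      (fun y => (hf (_, y)).2.2.2) y, mul_assoc]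

theorem zdir_eq {n : ℕ} (hn : 1 ≤ n) {f g : P → ℝ} (hf : Dir n f) (hg : Dir n g)
    (h : ∀ p ∈ inn n, f p = g p) : f = g := by
  ext ⟨x, y⟩
  rw [zo_fold hn hf, zo_fold hn hg]
  have a := zo_rng hn x
  have b := zo_rng hn y
  by_cases e : fold n x = 0 ∨ fold n x = n ∨ fold n y = 0 ∨ fold n y = n
  · rw [zo_zero hf e, zo_zero hg e]
  · rw [h _ (by simp only [inn, mem_product, mem_Ioo]; omega)]

theorem zdir_add {n : ℕ} {f g : P → ℝ} (hf : Dir n f) (hg : Dir n g) : Dir n (f + g) := by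
  intro p
  simp only [Pi.add_apply, hf p, hg p, neg_add, and_self]

theorem zdir_smul {n : ℕ} {f : P → ℝ} (hf : Dir n f) (c : ℝ) : Dir n (c • f) := by
  intro p
  simp only [Pi.smul_apply, hf p, smul_neg, and_self]

theorem zdir_sum {n : ℕ} {ι : Type} {J : Finset ι} {f : ι → P → ℝ} (hf : ∀ i ∈ J, Dir n (f i)) :
    Dir n (∑ i ∈ J, f i) := by
  exact sum_induction f (Dir n) (fun _ _ => zdir_add) (fun p => by simp) hf

theorem zeta_loc {L j m w : ℕ} {B p : P} {ω ω' : Om} (hB : B ∈ box m) (hL : 1 ≤ L)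
    (hp : p ∈ fat (L ^ (j + 1)) w B)
    (h : ∀ i, ∀ y ∈ fat (L ^ (j + 1)) (w + L ^ (j + 1) / 8) B, ω (i, y) = ω' (i, y)) :
    zeta L (L ^ (j + 1) * m) j ω p = zeta L (L ^ (j + 1) * m) j ω' p := by
  generalize hl : L ^ (j + 1) = l at *
  have l1 : 1 ≤ l := hl ▸ Nat.one_le_pow _ _ hL
  simp only [box, mem_product, mem_Ico] at hB
  have hn : 1 ≤ l * m := Nat.mul_pos l1 (by omega)
  have one : ∀ b x y : ℤ, 0 ≤ b → b < m → b * l - w ≤ x → x ≤ (b + 1) * l + w →
      |x - y| ≤ (l / 8 : ℕ) → b * l - (w + l / 8 : ℕ) ≤ fold (l * m) y ∧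
        fold (l * m) y ≤ (b + 1) * l + (w + l / 8 : ℕ) := fun b x y b0 b1 x0 x1 e => by
    have a0 : 0 ≤ b * l := by positivity
    have a1 : (b + 1) * l ≤ (l * m : ℕ) := by push_cast; nlinarith
    have a2 : b * l ≤ (b + 1) * l := by nlinarith
    have k := zfold_lip (q := max (b * l) (min y ((b + 1) * l))) (by omega) (by omega) hn y
    rw [abs_le] at e k
    push_cast at *
    rcases abs_cases (y - max (b * l) (min y ((b + 1) * l))) with e | e <;> omega
  simp only [fat, mem_product, mem_Icc] at hp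
  simp only [zeta, Finset.sum_apply]
  refine sum_congr rfl fun k hk => sum_congr rfl fun i hi =>
    ((zop_sq k (mem_range.1 hi)).mono (hl ▸ z_rng (mem_Ico.1 hk).2)).loc _ _ p fun y hy => ?_
  simp only [ext]
  rw [h _ _ (by
    simp only [fat, mem_product, mem_Icc]
    exact ⟨one _ _ _ hB.1.1 hB.1.2 hp.1.1 hp.1.2 hy.1, one _ _ _ hB.2.1 hB.2.2 hp.2.1 hp.2.2 hy.2⟩)]

end Pool.Agent.Lib.MP_9cc147_pr.Cx
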