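import Pool.Agent.Lib.MP_9cc147_pr.Cx.S1

/-! The mean white noise energy of a tile. -/

open scoped Classical Topology
open Finset MeasureTheory ProbabilityTheory Filter

noncomputable section
namespace Pool.Agent.Lib.MP_9cc147_pr.Cx

theorem ze_cov (m : Measure ℝ) [IsProbabilityMeasure m] (p p' : P) :
    Integrable (fun ω : Om => ω (4, p) * ω (4, p')) (mu0 m) ∧
      ∫ ω : Om, ω (4, p) * ω (4, p') ∂mu0 m = if p = p' then 1 else 0 := by
  have : ∀ i : ℕ × P, IsProbabilityMeasure (if i.1 < 4 then m else gaussianReal 0 1) :=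
    fun i => by split_ifs <;> infer_instance
  have e : ∀ p : P, MeasurePreserving (fun ω : Om => ω (4, p)) (mu0 m) (gaussianReal 0 1) :=
    fun p => measurePreserving_eval_infinitePi
      (fun i : ℕ × P => if i.1 < 4 then m else gaussianReal 0 1) (4, p)
  have l : ∀ p : P, MemLp (fun ω : Om => ω (4, p)) 2 (mu0 m) := fun p =>
    (memLp_id_gaussianReal' 2 (by simp)).comp_measurePreserving (e p)
  have i : ∀ (p : P) (f : ℝ → ℝ), Measurable f →
      ∫ ω : Om, f (ω (4, p)) ∂mu0 m = ∫ x, f x ∂gaussianReal 0 1 := fun p f hf => by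
    rw [← (e p).map_eq, integral_map (e p).measurable.aemeasurable hf.aestronglyMeasurable]
  refine ⟨(l p).integrable_mul (l p'), ?_⟩
  split_ifs with h
  · subst h
    rw [i p (fun x => x * x) (by fun_prop)]
    have := variance_fun_id_gaussianReal (μ := 0) (v := 1)
    rw [variance_of_integral_eq_zero (by fun_prop) integral_id_gaussianReal] at this
    simpa [sq] using this
  · have := ((iIndepFun_infinitePi (P := fun i : ℕ × P => if i.1 < 4 then m else gaussianReal 0 1)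
      (X := fun _ x => x) (by fun_prop)).indepFun (i := (4, p)) (j := (4, p'))
      (by simpa using h)).integral_fun_mul_eq_mul_integral (l p).1 (l p').1
    exact this.trans (mul_eq_zero_of_left ((i p (fun x => x) (by fun_prop)).trans
      integral_id_gaussianReal) _)

/-- indicator of the inner points of a segment -/
def zeI (n : ℕ) (x : ℤ) : ℝ := if x = 0 ∨ x = n then 0 else 1

theorem ze_zw {n : ℕ} (hn : 1 ≤ n) (ω : Om) {p : P} (h1 : 0 ≤ p.1 ∧ p.1 ≤ n)
    (h2 : 0 ≤ p.2 ∧ p.2 ≤ n) : zw n ω p = zeI n p.1 * zeI n p.2 / 4 * ω (4, p) := by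
  have e : ∀ x : ℤ, 0 ≤ x ∧ x ≤ n → fold n x = x ∧ sg n x = zeI n x := fun x h => by
    rw [fold, sg, zeI, Int.emod_eq_of_lt h.1 (by omega), if_pos h.2]
    refine ⟨rfl, ?_⟩
    split_ifs <;> first | rfl | omega
  simp only [zw, ext, Pi.smul_apply, smul_eq_mul, e _ h1, e _ h2]
  ring

theorem ze_face (m : Measure ℝ) [IsProbabilityMeasure m] {n : ℕ} {x : P} (h1 : 0 ≤ x.1 ∧ x.1 < n)
    (h2 : 0 ≤ x.2 ∧ x.2 < n) : Integrable (fun ω => ∑ d, dg (zw n ω) x d ^ 2) (mu0 m) ∧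
      ∫ ω, ∑ d, dg (zw n ω) x d ^ 2 ∂mu0 m =
        (zeI n x.1 + zeI n (x.1 + 1)) * (zeI n x.2 + zeI n (x.2 + 1)) / 8 := by
  let a : Fin 4 → ℝ := fun d => zeI n (x + crn d).1 * zeI n (x + crn d).2 / 4
  have z : ∀ ω d, zw n ω (x + crn d) = a d * ω (4, x + crn d) := fun ω d =>
    ze_zw (by omega) ω (by fin_cases d <;> simp [crn] <;> omega)
      (by fin_cases d <;> simp [crn] <;> omega)
  have k : ∀ d, Integrable (fun ω => dg (zw n ω) x d ^ 2) (mu0 m) ∧
      ∫ ω, dg (zw n ω) x d ^ 2 ∂mu0 m = a (d + 1) ^ 2 + a d ^ 2 := fun d => by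
    obtain ⟨i1, j1⟩ := ze_cov m (x + crn (d + 1)) (x + crn (d + 1))
    obtain ⟨i2, j2⟩ := ze_cov m (x + crn d) (x + crn d)
    obtain ⟨i3, j3⟩ := ze_cov m (x + crn (d + 1)) (x + crn d)
    rw [if_neg (by fin_cases d <;> simp [crn])] at j3
    have e : (fun ω => dg (zw n ω) x d ^ 2) = fun ω =>
        a (d + 1) ^ 2 * (ω (4, x + crn (d + 1)) * ω (4, x + crn (d + 1))) +
          a d ^ 2 * (ω (4, x + crn d) * ω (4, x + crn d)) -
          2 * a (d + 1) * a d * (ω (4, x + crn (d + 1)) * ω (4, x + crn d)) := by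
      funext ω
      simp only [dg, z]
      ring
    rw [e]
    refine ⟨((i1.const_mul _).add (i2.const_mul _)).sub (i3.const_mul _), ?_⟩
    rw [integral_sub ((i1.const_mul _).fun_add (i2.const_mul _)) (i3.const_mul _),
      integral_add (i1.const_mul _) (i2.const_mul _), integral_const_mul, integral_const_mul,
      integral_const_mul, j1, j2, j3]
    simp
  refine ⟨integrable_finsetSum _ fun d _ => (k d).1, ?_⟩
  rw [integral_finsetSum _ fun d _ => (k d).1, sum_congr rfl fun d _ => (k d).2]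
  have s : ∀ y, zeI n y ^ 2 = zeI n y := fun y => by unfold zeI; split_ifs <;> simp
  simp [Fin.sum_univ_four, a, crn, mul_pow, div_pow, s]
  ring

/-- one if the neighbour of `B` in the direction `d` is outside -/
def zeO (m : ℕ) (B : P) (d : Fin 4) : ℝ := if B + dir d ∈ box m then 0 else 1

theorem ze_row {L m : ℕ} (hL : 1 ≤ L) {k : ℤ} (h : 0 ≤ k ∧ k < m) :
    ∑ i ∈ Ico (k * L) ((k + 1) * L), (zeI (L * m) i + zeI (L * m) (i + 1)) =
      2 * L - (if k + 1 < m then 0 else 1) - if 0 ≤ k - 1 then 0 else 1 := by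
  have a : (0 : ℤ) ≤ k * L := mul_nonneg h.1 (by positivity)
  have b : (k + 1) * L ≤ (L * m : ℕ) := by push_cast; nlinarith
  have l : (1 : ℤ) ≤ L := by exact_mod_cast hL
  have e : ∀ i ∈ Ico (k * L) ((k + 1) * L), zeI (L * m) i + zeI (L * m) (i + 1) =
      2 - (if i = (L * m : ℕ) - 1 then 1 else 0) - if i = 0 then 1 else 0 := fun i hi => by
    rw [mem_Ico] at hi
    unfold zeI
    split_ifs <;> first | omega | norm_num
  have e1 : ((L * m : ℕ) : ℤ) - 1 ∈ Ico (k * L) ((k + 1) * L) ↔ ¬ k + 1 < m := by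
    rw [mem_Ico]
    push_cast at b ⊢
    refine ⟨fun c d => by nlinarith, fun c => ?_⟩
    obtain e : (m : ℤ) = k + 1 := by omega
    rw [e]
    constructor <;> nlinarith
  have e2 : (0 : ℤ) ∈ Ico (k * L) ((k + 1) * L) ↔ ¬ 0 ≤ k - 1 := by
    rw [mem_Ico]
    refine ⟨fun c d => by nlinarith, fun c => ?_⟩
    obtain rfl : k = 0 := by omega
    simp
    omega
  rw [sum_congr rfl e, sum_sub_distrib, sum_sub_distrib, sum_ite_eq', sum_ite_eq', sum_const,
    Int.card_Ico, show (k + 1) * L - k * L = L by ring]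
  simp only [e1, e2, ite_not]
  simp [mul_comm]

theorem ze_val (q : Par) (m : Measure ℝ) [IsProbabilityMeasure m] {b : ℕ × ℕ} {B : P}
    (hL : 1 ≤ q.L) (hB : B ∈ box (q.m b 0)) : E0 q (mu0 m) b B =
      ((2 * q.L - zeO (q.m b 0) B 0 - zeO (q.m b 0) B 2) *
        (2 * q.L - zeO (q.m b 0) B 1 - zeO (q.m b 0) B 3) / 16 : ℝ) := by
  have e : q.n b = q.L * q.m b 0 := by simp only [Par.n, Par.m]; rw [Nat.sub_zero]; ring
  rw [E0, e]
  generalize q.m b 0 = M at *
  generalize q.L = L at *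
  simp only [box, mem_product, mem_Ico] at hB
  have k : ∀ x ∈ cell L B, (0 ≤ x.1 ∧ x.1 < (L * M : ℕ)) ∧ 0 ≤ x.2 ∧ x.2 < (L * M : ℕ) := by
    intro x hx
    simp only [cell, mem_product, mem_Ico] at hx
    push_cast
    refine ⟨⟨?_, ?_⟩, ?_, ?_⟩ <;> nlinarith
  have f : ∀ ω, En (cf (zw (L * M) ω)) (cell L B) =
      (∑ x ∈ cell L B, (1 / 2) * ∑ d, dg (zw (L * M) ω) x d ^ 2 : ℝ) := fun ω => by
    simp [En, dg, cf]
  simp only [f]
  rw [integral_complex_ofReal, integral_finsetSum _ fun x hx =>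
    (ze_face m (k x hx).1 (k x hx).2).1.const_mul _, sum_congr rfl fun x hx => by
      rw [integral_const_mul, (ze_face m (k x hx).1 (k x hx).2).2]]
  congr 1
  have := congrArg₂ (· * ·) (ze_row hL hB.1) (ze_row hL hB.2)
  have o : ∀ d (r : Prop) [Decidable r], (B + dir d ∈ box M ↔ r) → zeO M B d = if r then 0 else 1 :=
    fun d r _ h => if_congr h rfl rfl
  rw [o 0 (B.1 + 1 < M) (by simp [box, dir]; omega), o 1 (B.2 + 1 < M) (by simp [box, dir]; omega),
    o 2 (0 ≤ B.1 - 1) (by simp [box, dir]; omega), o 3 (0 ≤ B.2 - 1) (by simp [box, dir]; omega),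
    ← this, sum_mul_sum, cell, sum_product, sum_div]
  refine sum_congr rfl fun i _ => ?_
  rw [sum_div]
  exact sum_congr rfl fun j _ => by ring

theorem ze_mv {m m' : ℕ} {g : Sy} {c B : P} (h : Mv m m' g c {B}) (t : ℝ) :
    (t - zeO m' (fm g c B) 0 - zeO m' (fm g c B) 2) *
      (t - zeO m' (fm g c B) 1 - zeO m' (fm g c B) 3) =
      (t - zeO m B 0 - zeO m B 2) * (t - zeO m B 1 - zeO m B 3) := by
  have k : ∀ d d', fm g c (B + dir d) = fm g c B + dir d' → zeO m' (fm g c B) d' = zeO m B d :=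
    fun d d' e => if_congr (by
      rw [← e, ← h.1 _ ⟨B, mem_singleton_self B, by fin_cases d <;> simp [nr, dir]⟩]) rfl rfl
  obtain ⟨_ | _, _ | _, _ | _⟩ := g
  · rw [k 0 0, k 1 1, k 2 2, k 3 3] <;>
      first | ring1 | (ext <;> simp [fm, vm, dir] <;> ring1)
  · rw [k 0 0, k 3 1, k 2 2, k 1 3] <;>
      first | ring1 | (ext <;> simp [fm, vm, dir] <;> ring1)
  · rw [k 2 0, k 1 1, k 0 2, k 3 3] <;>
      first | ring1 | (ext <;> simp [fm, vm, dir] <;> ring1)
  · rw [k 2 0, k 3 1, k 0 2, k 1 3] <;>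
      first | ring1 | (ext <;> simp [fm, vm, dir] <;> ring1)
  · rw [k 1 0, k 0 1, k 3 2, k 2 3] <;>
      first | ring1 | (ext <;> simp [fm, vm, dir] <;> ring1)
  · rw [k 1 0, k 2 1, k 3 2, k 0 3] <;>
      first | ring1 | (ext <;> simp [fm, vm, dir] <;> ring1)
  · rw [k 3 0, k 0 1, k 1 2, k 2 3] <;>
      first | ring1 | (ext <;> simp [fm, vm, dir] <;> ring1)
  · rw [k 3 0, k 2 1, k 1 2, k 0 3] <;>
      first | ring1 | (ext <;> simp [fm, vm, dir] <;> ring1)

theorem t_e0 : S_e0 := by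
  intro q m _ b B hL _ hB
  have h1 : 1 ≤ q.L := by omega
  have z : ∀ d, 0 ≤ zeO (q.m b 0) B d ∧ zeO (q.m b 0) B d ≤ 1 := fun d => by
    unfold zeO; split_ifs <;> norm_num
  have l : (100 : ℝ) ≤ q.L := by exact_mod_cast hL
  refine ⟨by rw [ze_val q m h1 hB, Complex.ofReal_im], ?_, ?_, fun b' g c _ h => ?_⟩
  · rw [ze_val q m h1 hB, Complex.norm_real, Real.norm_eq_abs, abs_div, abs_mul]
    have := mul_le_mul (b := (2 * q.L : ℝ)) (d := (2 * q.L : ℝ))
      (abs_le.2 ⟨by linarith [z 0, z 2], by linarith [z 0, z 2]⟩ :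
        |2 * q.L - zeO (q.m b 0) B 0 - zeO (q.m b 0) B 2| ≤ _)
      (abs_le.2 ⟨by linarith [z 1, z 3], by linarith [z 1, z 3]⟩ :
        |2 * q.L - zeO (q.m b 0) B 1 - zeO (q.m b 0) B 3| ≤ _) (abs_nonneg _) (by linarith)
    rw [abs_of_pos (by norm_num : (0 : ℝ) < 16)]
    nlinarith
  · rw [show PP = mu0 (gaussianReal 0 1) by simp [PP, mu0], ze_val q m h1 hB, ze_val q _ h1 hB]
  · rw [ze_val q m h1 hB, ze_val q m h1 ((h.1 B ⟨B, mem_singleton_self B, by simp [nr]⟩).1 hB),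
      ze_mv h]

end Pool.Agent.Lib.MP_9cc147_pr.Cx
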