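import Pool.Agent.Lib.MP_9cc147_pr.Cx.S1

/-! Independence. -/

open scoped Classical Topology
open Finset MeasureTheory ProbabilityTheory Filter

noncomputable section
namespace Pool.Agent.Lib.MP_9cc147_pr.Cx

theorem zi_prob (m : Measure ℝ) [IsProbabilityMeasure m] : IsProbabilityMeasure (mu0 m) := by
  unfold mu0
  have : ∀ i : ℕ × P, IsProbabilityMeasure (if i.1 < 4 then m else gaussianReal 0 1) := fun i => by
    split_ifs <;> infer_instance
  infer_instance

/-- a local function is measurable for the coordinates it depends on -/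
theorem zi_comap (S : Set P) (f : Om → ℂ) (hf : Dep S f) :
    MeasurableSpace.comap f inferInstance ≤ ⨆ k ∈ {k : ℕ × P | k.2 ∈ S},
      MeasurableSpace.comap (fun ω : Om => ω k) inferInstance := by
  have e : f = f ∘ fun (ω : Om) k => if k.2 ∈ S then ω k else 0 := by
    funext ω
    exact hf.2 _ _ fun i p hp => by simp [hp]
  rw [← measurable_iff_comap_le, e]
  refine hf.1.comp (@measurable_pi_lambda _ _ _ (_) _ _ fun k => ?_)
  by_cases hk : k.2 ∈ S
  · simp only [hk, if_true]
    rw [measurable_iff_comap_le]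
    exact le_iSup₂_of_le k hk le_rfl
  · simp only [hk, if_false]
    exact measurable_const

theorem zi_two (m : Measure ℝ) [IsProbabilityMeasure m] (S T : Set P) (f g : Om → ℂ)
    (hf : Dep S f) (hg : Dep T g) (h : Disjoint S T) : IndepFun f g (mu0 m) := by
  have : ∀ i : ℕ × P, IsProbabilityMeasure (if i.1 < 4 then m else gaussianReal 0 1) := fun i => by
    split_ifs <;> infer_instance
  have h1 : iIndepFun (fun (k : ℕ × P) (ω : Om) => ω k) (mu0 m) :=
    iIndepFun_infinitePi (X := fun _ x => x) fun _ => measurable_id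
  rw [iIndepFun_iff_iIndep] at h1
  have h2 := indep_iSup_of_disjoint (fun k => (measurable_pi_apply k).comap_le) h1
    (S := {k : ℕ × P | k.2 ∈ S}) (T := {k : ℕ × P | k.2 ∈ T})
    (Set.disjoint_left.2 fun k a b => Set.disjoint_left.1 h a b)
  rw [IndepFun_iff_Indep]
  exact indep_of_indep_of_le_right (indep_of_indep_of_le_left h2 (zi_comap S f hf))
    (zi_comap T g hg)

theorem t_ind : S_ind := by
  intro m _ ι J S f
  have := zi_prob m
  induction J using Finset.induction_on with
  | empty => intro _ _; simp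
  | insert a J ha ih =>
    intro h1 h2
    obtain ⟨i1, i2⟩ := ih (fun i hi => h1 i (mem_insert_of_mem hi))
      fun i hi k hk => h2 i (mem_insert_of_mem hi) k (mem_insert_of_mem hk)
    have ha1 := h1 a (mem_insert_self _ _)
    have hd : Dep (⋃ i ∈ J, S i) fun ω => ∏ i ∈ J, f i ω := by
      refine ⟨Finset.measurable_prod _ fun i hi => (h1 i (mem_insert_of_mem hi)).1.1,
        fun ω ω' h => Finset.prod_congr rfl fun i hi => ?_⟩
      exact (h1 i (mem_insert_of_mem hi)).1.2 _ _ fun j p hp => h j p (Set.mem_biUnion hi hp)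
    have hi : IndepFun (f a) (fun ω => ∏ i ∈ J, f i ω) (mu0 m) := by
      refine zi_two m _ _ _ _ ha1.1 hd ?_
      rw [Set.disjoint_iUnion₂_right]
      intro i hi
      exact h2 a (mem_insert_self _ _) i (mem_insert_of_mem hi) fun e => ha (e ▸ hi)
    simp only [prod_insert ha]
    refine ⟨hi.integrable_mul ha1.2 i1, ?_⟩
    rw [hi.integral_fun_mul_eq_mul_integral ha1.2.1 i1.1, i2]

end Pool.Agent.Lib.MP_9cc147_pr.Cx
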