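import Pool.Agent.Lib.MP_9cc147_pr.Cx.Z.Mode

/-! Characters. -/

open scoped Classical Topology
open Finset MeasureTheory ProbabilityTheory Filter

noncomputable section
namespace Pool.Agent.Lib.MP_9cc147_pr.Cx

/-- a character after noise of variance `S` -/
def zch (n : ℕ) (ψ S : P → ℝ) (Ξ : Fld) : ℂ :=
  Complex.exp (Complex.I * ∑ p ∈ inn n, ψ p * Ξ p) *
    Complex.exp (-(∑ a ∈ inn n, zhat n ψ a ^ 2 * S a : ℝ) / 2)

theorem zch_congr {n : ℕ} {ψ S S' : P → ℝ} (h : ∀ a ∈ inn n, S a = S' a) :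
    zch n ψ S = zch n ψ S' := by
  ext Ξ
  rw [zch, zch, sum_congr (s₂ := inn n) (f := fun a => zhat n ψ a ^ 2 * S a) rfl
    fun a ha => by rw [h a ha]]

theorem zch_step {μ : Measure Om} {n : ℕ} {ζ : Om → P → ℝ} {s : P → ℝ} (h : ZMode μ n ζ s)
    (ψ S : P → ℝ) (Ξ : Fld) : ∫ ω, zch n ψ S (Ξ + cf (ζ ω)) ∂μ = zch n ψ (S + s) Ξ := by
  have : ∀ ω, zch n ψ S (Ξ + cf (ζ ω)) =
      zch n ψ S Ξ * Complex.exp (Complex.I * ∑ p ∈ inn n, (ψ p : ℂ) * ζ ω p) := fun ω => by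
    simp only [zch, cf, Pi.add_apply, mul_add, sum_add_distrib, Complex.exp_add]
    ring
  simp only [this]
  rw [integral_const_mul, h.char, zch, zch, mul_assoc, ← Complex.exp_add]
  simp only [Pi.add_apply, mul_add, sum_add_distrib]
  push_cast
  ring_nf

theorem t_zchar : S_zchar := by
  intro L n J ϑ Θ hn hϑ
  have pp : PP = mu0 (gaussianReal 0 1) := by simp [PP, mu0]
  have e0 : (fun Ξ : Fld => ∫ ω, Complex.exp (Complex.I *
      ∑ p ∈ inn n, Lap ϑ p * (Ξ p + zw n ω p)) ∂PP) = zch n (Lap ϑ) fun _ => 1 / 16 := by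
    ext Ξ
    have := zch_step (zmode_zw (gaussianReal 0 1) hn) (Lap ϑ) 0 Ξ
    rw [zero_add] at this
    rw [pp, ← this]
    simp [zch, cf]
  have ex : ∀ j, Ex L n (zch n (Lap ϑ) fun _ => 1 / 16) j =
      zch n (Lap ϑ) fun a => 1 / zlm n a - zrs (lev L j) (zlm n a) := fun j => by
    induction j with
    | zero => exact zch_congr fun a _ => by simp [lev, zrs, zpn]
    | succ j ih =>
      ext Ξ
      rw [Ex, ih]
      refine (zch_step (zmode_zeta L j hn) _ _ Ξ).trans (congrFun (zch_congr fun a ha => ?_) Ξ)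
      simp only [Pi.add_apply, zrs_lev L j (zlm_bd ha).1.ne']
      ring
  rw [e0, Tot, ex, zch_step (zmode_zr _ hn), zch, ← Complex.exp_add, zpars n (Lap ϑ) ϑ]
  have : ∑ a ∈ inn n, zhat n (Lap ϑ) a ^ 2 * ((fun a => 1 / zlm n a - zrs (lev L J) (zlm n a)) +
      fun a => zrs (lev L J) (zlm n a)) a = ∑ a ∈ inn n, zhat n (Lap ϑ) a * zhat n ϑ a := by
    refine sum_congr rfl fun a ha => ?_
    have := (zlm_bd ha).1.ne'
    rw [zhat_op hn (fun a _ => zsn_lap n a) hϑ ha, Pi.add_apply]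
    field_simp
    ring
  rw [this]
  simp only [cf]
  push_cast
  ring_nf

end Pool.Agent.Lib.MP_9cc147_pr.Cx
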