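import Pool.Agent.Lib.MP_9cc147_pr.Cx.Z.Op

/-! Elementary properties of the noise. -/

open scoped Classical Topology
open Finset MeasureTheory ProbabilityTheory Filter

noncomputable section
namespace Pool.Agent.Lib.MP_9cc147_pr.Cx

theorem ze_mea (n : ℕ) {g : Om → P → ℝ} (h : ∀ p, Measurable fun ω => g ω p) :
    Measurable fun ω => ext n (g ω) :=
  measurable_pi_lambda _ fun _ => (h _).const_mul _

theorem ze_neg (n : ℕ) (g : P → ℝ) : ext n (fun p => -g p) = -ext n g := by
  ext p; simp [ext]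

theorem ze_mp (m : Measure ℝ) [IsProbabilityMeasure m] (f : ℕ × P → ℝ → ℝ)
    (hf : ∀ i, Measurable (f i)) (h : ∀ i : ℕ × P, (if i.1 < 4 then m else gaussianReal 0 1).map
      (f i) = if i.1 < 4 then m else gaussianReal 0 1) :
    MeasurePreserving (fun (ω : Om) i => f i (ω i)) (mu0 m) (mu0 m) := by
  have : ∀ i : ℕ × P, IsProbabilityMeasure (if i.1 < 4 then m else gaussianReal 0 1) :=
    fun i => by split_ifs <;> infer_instance
  refine ⟨by fun_prop, ?_⟩
  rw [mu0, Measure.infinitePi_map_pi _ hf]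
  simp only [h]

theorem t_zel : S_zel := by
  refine ⟨by simp [PP, mu0], fun L n j _ hn => ⟨fun ω => ⟨?_, zdir_smul (zext_dir hn _) _,
    (zop_pn5 j).dir (zext_dir hn _)⟩, ⟨?_, (ze_mea n (g := fun ω p => ω (4, p))
    fun p => by fun_prop).const_smul (1 / 4 : ℝ), (zop_pn5 j).mea.comp (ze_mea n
      (g := fun ω p => ∑ q ∈ inn n, root n p q * ω (0, q)) fun p => by fun_prop)⟩, fun ω => ⟨?_, ?_, ?_⟩,
    fun ω ω' p hp h => ?_, fun m _ hm => ⟨?_, ?_⟩⟩⟩
  · exact zdir_sum fun k _ => zdir_sum fun i hi => (zop_sq k (mem_range.1 hi)).dir (zext_dir hn _)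
  · exact Finset.measurable_fun_sum _ fun k _ => Finset.measurable_fun_sum _ fun i hi =>
      (zop_sq k (mem_range.1 hi)).mea.comp
        (ze_mea n (g := fun ω p => ω (5 * k + i, p)) fun p => by fun_prop)
  · simp only [zeta, Pi.neg_apply, ze_neg, map_neg, sum_neg_distrib]
  · simp only [zw, Pi.neg_apply, ze_neg, smul_neg]
  · simp only [zr, Pi.neg_apply, mul_neg, sum_neg_distrib, ze_neg, map_neg]
  · simp only [sqr, mem_product, mem_Icc] at hp
    simp only [zeta, Finset.sum_apply]
    refine sum_congr rfl fun k hk => sum_congr rfl fun i hi =>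
      ((zop_sq k (mem_range.1 hi)).mono (z_rng (mem_Ico.1 hk).2)).loc _ _ p fun y hy => ?_
    simp only [ext]
    rw [h _ _ ⟨?_, ?_⟩]
    · rw [abs_sub_comm]
      exact (zfold_lip hp.1.1 hp.1.2 hn _).trans ((abs_sub_comm _ _).le.trans hy.1)
    · rw [abs_sub_comm]
      exact (zfold_lip hp.2.1 hp.2.2 hn _).trans ((abs_sub_comm _ _).le.trans hy.2)
  · exact ze_mp m (fun _ x => -x) (fun _ => measurable_neg) fun i => by
      split_ifs
      · exact hm
      · rw [gaussianReal_map_neg, neg_zero]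
  · exact ze_mp m (fun i x => if i.1 < 4 then -x else x)
      (fun i => by split_ifs <;> fun_prop) fun i => by
      by_cases h : i.1 < 4
      · simpa only [if_pos h] using hm
      · simp only [if_neg h, Measure.map_id']

end Pool.Agent.Lib.MP_9cc147_pr.Cx
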