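import Pool.Agent.Lib.MP_9cc147_pr.Cx.Z.Op

/-! Covariance of the noise under the moves. -/

open scoped Classical Topology
open Finset MeasureTheory ProbabilityTheory Filter

noncomputable section
namespace Pool.Agent.Lib.MP_9cc147_pr.Cx

theorem zi_perm {ι : Type} (μ : ι → Measure ℝ) [∀ i, IsProbabilityMeasure (μ i)] (e : ι ≃ ι)
    (he : ∀ i, μ (e i) = μ i) :
    MeasurePreserving (fun (ω : ι → ℝ) i => ω (e i)) (Measure.infinitePi μ)
      (Measure.infinitePi μ) := by
  refine ⟨by fun_prop, ?_⟩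
  have h := Measure.infinitePi_map_piCongrLeft (X := fun _ => ℝ) μ e.symm
  have h1 : (fun i => μ (e.symm i)) = μ := by
    funext i
    rw [← he (e.symm i), e.apply_symm_apply]
  have h2 : (MeasurableEquiv.piCongrLeft (fun _ : ι => ℝ) e.symm : (ι → ℝ) → ι → ℝ) =
      fun ω i => ω (e i) := by
    funext ω i
    have := Equiv.piCongrLeft_apply_apply (fun _ : ι => ℝ) e.symm ω (e i)
    rw [e.symm_apply_apply] at this
    exact this
  rw [h2] at h
  simpa only [h1] using h

theorem zi_vm_bij (g : Sy) (c : P) : Function.Bijective (vm g c) := by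
  obtain ⟨sw, f1, f2⟩ := g
  constructor
  · intro a b h
    cases sw <;> cases f1 <;> cases f2 <;> simp [vm, Prod.ext_iff] at h ⊢ <;> omega
  · intro p
    refine ⟨if sw then ((if f2 then -1 else 1) * (p.2 - c.2), (if f1 then -1 else 1) * (p.1 - c.1))
      else ((if f1 then -1 else 1) * (p.1 - c.1), (if f2 then -1 else 1) * (p.2 - c.2)), ?_⟩
    cases sw <;> cases f1 <;> cases f2 <;> simp [vm]

/-- the relabelling of the noise by a move preserves every product law that does not depend on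
the site -/
theorem zi_mp (μ : ℕ → Measure ℝ) [∀ i, IsProbabilityMeasure (μ i)] (g : Sy) (c : P) :
    MeasurePreserving (fun (ω : Om) i => ω (i.1, vm g c i.2))
      (Measure.infinitePi fun i : ℕ × P => μ i.1) (Measure.infinitePi fun i : ℕ × P => μ i.1) :=
  zi_perm (fun i : ℕ × P => μ i.1)
    ((Equiv.refl ℕ).prodCongr (Equiv.ofBijective _ (zi_vm_bij g c))) fun _ => rfl

theorem zi_one {l m : ℕ} {B s : ℤ} (h0 : 0 ≤ B) (h1 : B < m) (hs : -(l : ℤ) < s)
    (hs' : s < 2 * l) :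
    fold (l * m) (B * l + s) =
      B * l + (if B = 0 ∧ s < 0 then -s else if B + 1 = m ∧ (l : ℤ) < s then 2 * l - s else s) ∧
    sg (l * m) (B * l + s) = (if (B = 0 ∧ s < 0) ∨ (B + 1 = m ∧ (l : ℤ) < s) then -1 else
      if (B = 0 ∧ s = 0) ∨ (B + 1 = m ∧ s = l) then 0 else 1) ∧
    ((0 ≤ B * l + s ∧ B * l + s ≤ (l * m : ℕ)) ↔
      ¬ ((B = 0 ∧ s < 0) ∨ (B + 1 = m ∧ (l : ℤ) < s))) := by
  have hl : (1 : ℤ) ≤ l := by omega
  have a0 : B = 0 → B * l = 0 := fun h => by simp [h]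
  have a1 : B ≠ 0 → (l : ℤ) ≤ B * l := fun h => by
    have : 1 ≤ B := by omega
    nlinarith
  have a2 : B + 1 = m → B * l + l = (l * m : ℕ) := fun h => by
    push_cast
    rw [← h]
    ring
  have a3 : B + 1 ≠ m → B * l + 2 * l ≤ (l * m : ℕ) := fun h => by
    have : B + 2 ≤ m := by omega
    push_cast
    nlinarith
  have a4 : 0 ≤ B * l := by positivity
  generalize B * l = u at *
  generalize l * m = N at *
  have hN : 1 ≤ N := by omega
  by_cases c1 : B = 0 ∧ s < 0
  · have e := zfold_neg N (-(u + s)) hN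
    have e' := zfold_mid (n := N) (x := -(u + s)) (by omega) (by omega) hN
    rw [neg_neg, e'.1, e'.2, if_neg (by omega)] at e
    rw [e.1, e.2, if_pos c1, if_pos (Or.inl c1)]
    exact ⟨by omega, rfl, by omega⟩
  by_cases c2 : B + 1 = m ∧ (l : ℤ) < s
  · have e := zfold_ref N (2 * N - (u + s)) hN
    have e' := zfold_mid (n := N) (x := 2 * N - (u + s)) (by omega) (by omega) hN
    rw [sub_sub_cancel, e'.1, e'.2, if_neg (by omega)] at e
    rw [e.1, e.2, if_neg c1, if_pos c2, if_pos (Or.inr c2)]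
    exact ⟨by omega, rfl, by omega⟩
  · have e' := zfold_mid (n := N) (x := u + s) (by omega) (by omega) hN
    rw [e'.1, e'.2, if_neg c1, if_neg c2, if_neg (not_or.2 ⟨c1, c2⟩)]
    exact ⟨rfl, if_congr (by omega) rfl rfl, by omega⟩

theorem zi_tr {l m m' : ℕ} {B c t : ℤ} (f : Bool) (hB : 0 ≤ B ∧ B < m)
    (h : ∀ B', |B - B'| ≤ 1 → ((0 ≤ B' ∧ B' < m) ↔
      (0 ≤ (if f then -1 else 1) * B' + c - (if f then 1 else 0) ∧
        (if f then -1 else 1) * B' + c - (if f then 1 else 0) < m')))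
    (ht : B * l - l < t ∧ t < B * l + 2 * l) :
    fold (l * m') ((if f then -1 else 1) * t + l * c) =
      (if f then -1 else 1) * fold (l * m) t + l * c ∧
    sg (l * m') ((if f then -1 else 1) * t + l * c) = sg (l * m) t ∧
    (0 ≤ t ∧ t ≤ (l * m : ℕ) → 0 ≤ (if f then -1 else 1) * t + l * c ∧
      (if f then -1 else 1) * t + l * c ≤ (l * m' : ℕ)) := by
  obtain ⟨s, rfl⟩ : ∃ s, t = B * l + s := ⟨t - B * l, by ring⟩
  have k0 := h B (by simp)
  have k1 := h (B - 1) (by simp)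
  have k2 := h (B + 1) (by simp)
  obtain ⟨e1, e2, e3⟩ := zi_one (l := l) (m := m) (s := s) hB.1 hB.2 (by omega) (by omega)
  cases f
  · simp only [Bool.false_eq_true, if_false, one_mul, sub_zero] at *
    obtain ⟨d1, d2, d3⟩ := zi_one (l := l) (m := m') (B := B + c) (s := s) (by omega) (by omega)
      (by omega) (by omega)
    have r : B * l + s + l * c = (B + c) * l + s := by ring
    have p0 : B + c = 0 ↔ B = 0 := by omega
    have p1 : B + c + 1 = m' ↔ B + 1 = m := by omega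
    simp only [p0, p1] at d1 d2 d3
    rw [r, d1, d2, d3, e1, e2, e3]
    exact ⟨by ring, rfl, id⟩
  · simp only [if_true, neg_mul, one_mul] at *
    obtain ⟨d1, d2, d3⟩ := zi_one (l := l) (m := m') (B := -B + c - 1) (s := l - s) (by omega)
      (by omega) (by omega) (by omega)
    have r : -(B * l + s) + l * c = (-B + c - 1) * l + (l - s) := by ring
    have r' : (-B + c - 1) * l = -(B * l) + l * c - l := by ring
    have p0 : -B + c - 1 = 0 ↔ B + 1 = m := by omega
    have p1 : -B + c - 1 + 1 = m' ↔ B = 0 := by omega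
    simp only [p0, p1] at d1 d2 d3
    rw [r, d1, d2, d3, e1, e2, e3, r']
    refine ⟨?_, if_congr (by omega) rfl (if_congr (by omega) rfl rfl), by omega⟩
    split_ifs <;> omega

/-- the odd extensions of the two boxes correspond near a block whose surroundings are moved -/
theorem zi_two2 {l m m' : ℕ} {g : Sy} {c B y : P} (hB : B ∈ box m)
    (h : ∀ B', nr 1 B B' → (B' ∈ box m ↔ fm g c B' ∈ box m'))
    (h1 : B.1 * l - l < y.1 ∧ y.1 < B.1 * l + 2 * l)
    (h2 : B.2 * l - l < y.2 ∧ y.2 < B.2 * l + 2 * l) :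
    (∀ f : P → ℝ, ext (l * m') f (vm g (smul l c) y) =
      ext (l * m) (fun p => f (vm g (smul l c) p)) y) ∧
    (y ∈ sqr (l * m) → vm g (smul l c) y ∈ sqr (l * m')) := by
  obtain ⟨sw, f1, f2⟩ := g
  have hB' := (h B (by simp [nr])).1 hB
  simp only [box, mem_product, mem_Ico, fm, vm, Prod.fst_sub, Prod.snd_sub, nr] at hB hB' h
  have x1 := fun B' (hb : |B.1 - B'| ≤ 1) => h (B', B.2) ⟨by simpa using hb, by simp⟩
  have x2 := fun B' (hb : |B.2 - B'| ≤ 1) => h (B.1, B') ⟨by simp, by simpa using hb⟩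
  cases sw
  · simp only [Bool.false_eq_true, if_false] at hB' x1 x2
    obtain ⟨a1, a2, a3⟩ := zi_tr (m' := m') (c := c.1) f1 hB.1
      (fun B' hb => by have := x1 B' hb; tauto) h1
    obtain ⟨b1, b2, b3⟩ := zi_tr (m' := m') (c := c.2) f2 hB.2
      (fun B' hb => by have := x2 B' hb; tauto) h2
    refine ⟨fun f => ?_, fun hy => ?_⟩
    · simp only [ext, vm, smul, Bool.false_eq_true, if_false, a1, a2, b1, b2]
    · simp only [sqr, mem_product, mem_Icc, vm, smul, Bool.false_eq_true, if_false] at hy ⊢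
      exact ⟨a3 hy.1, b3 hy.2⟩
  · simp only [if_true] at hB' x1 x2
    obtain ⟨a1, a2, a3⟩ := zi_tr (m' := m') (c := c.2) f2 hB.1
      (fun B' hb => by have := x1 B' hb; tauto) h1
    obtain ⟨b1, b2, b3⟩ := zi_tr (m' := m') (c := c.1) f1 hB.2
      (fun B' hb => by have := x2 B' hb; tauto) h2
    refine ⟨fun f => ?_, fun hy => ?_⟩
    · simp only [ext, vm, smul, if_true, a1, a2, b1, b2, mul_comm (sg (l * m) y.1)]
    · simp only [sqr, mem_product, mem_Icc, vm, smul, if_true] at hy ⊢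
      exact ⟨b3 hy.2, a3 hy.1⟩

theorem zi_n (q : Par) {b : ℕ × ℕ} {j : ℕ} (h : Par.ok b j) : q.n b = q.l j * q.m b j := by
  have e : b.2 + 2 = (j + 1) + (b.2 + 1 - j) := by have := h.2.1; omega
  simp only [Par.n, Par.l, Par.m]
  rw [e, pow_add]
  ring

theorem t_ziso : S_ziso := by
  intro q j g c hL
  refine ⟨zi_mp (fun _ => gaussianReal 0 1) g _, fun b b' U hb hb' hU hM ω p hp => ?_⟩
  obtain ⟨hp1, hp2⟩ := mem_inter.1 hp
  obtain ⟨B, hBU, hpB⟩ := mem_biUnion.1 hp1
  have hl : 1 ≤ q.l j := Nat.one_le_pow _ _ (by omega)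
  have hM' : ∀ B', nr 1 B B' → (B' ∈ box (q.m b j) ↔ fm g c B' ∈ box (q.m b' j)) :=
    fun B' hn => hM.1 B' ⟨B, hBU, hn⟩
  simp only [nb, fat, mem_product, mem_Icc, add_mul, one_mul] at hpB
  rw [zi_n q hb] at hp2
  rw [zi_n q hb, zi_n q hb']
  refine ⟨(zi_two2 (hU hBU) hM' (by omega) (by omega)).2 hp2, ?_⟩
  simp only [zeta, Finset.sum_apply]
  refine sum_congr rfl fun k hk => sum_congr rfl fun i hi => ?_
  have ho := zop_sq k (mem_range.1 hi)
  have hr : 11 * 2 ^ k ≤ q.l j / 8 := z_rng (mem_Ico.1 hk).2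
  have e := congrFun (ho.sym g (smul (q.l j) c)
    (ext (q.l j * q.m b' j) fun p => ω (5 * k + i, p))) p
  rw [Function.comp_apply] at e
  rw [← e]
  refine ho.loc _ _ p fun y hy => ?_
  obtain ⟨y1, y2⟩ := hy
  rw [abs_le] at y1 y2
  generalize 11 * 2 ^ k = r at *
  exact (zi_two2 (hU hBU) hM' (by omega) (by omega)).1 _

end Pool.Agent.Lib.MP_9cc147_pr.Cx
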