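import Pool.Agent.Lib.MP_9cc147_pr.Cx.Z.Set

/-! Budgets and four colours. -/

open scoped Classical Topology
open Finset MeasureTheory ProbabilityTheory Filter

noncomputable section
namespace Pool.Agent.Lib.MP_9cc147_pr.Cx

theorem zb_exp {ι : Type} {J : Finset ι} (hJ : J.Nonempty) (x : ι → ℝ) :
    Real.exp (∑ i ∈ J, x i) ≤ ∑ i ∈ J, (J.card : ℝ)⁻¹ * Real.exp (J.card * x i) := by
  have hc : (0 : ℝ) < J.card := by exact_mod_cast hJ.card_pos
  have h := convexOn_exp.map_sum_le (t := J) (w := fun _ => (J.card : ℝ)⁻¹)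
    (p := fun i => J.card * x i) (fun _ _ => by positivity)
    (by rw [sum_const, nsmul_eq_mul, mul_inv_cancel₀ hc.ne']) (fun _ _ => Set.mem_univ _)
  simp only [smul_eq_mul] at h
  have e : ∑ i ∈ J, (J.card : ℝ)⁻¹ * (J.card * x i) = ∑ i ∈ J, x i :=
    sum_congr rfl fun i _ => by rw [← mul_assoc, inv_mul_cancel₀ hc.ne', one_mul]
  rwa [e] at h

/-- Jensen with equal weights -/
theorem zb_avg {μ : Measure Om} {ι : Type} {J : Finset ι} (hJ : J.Nonempty) {g : ι → Om → ℝ}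
    {a : ℝ} (hm : ∀ i ∈ J, Measurable (g i))
    (h : ∀ i ∈ J, Mom μ (fun ω => J.card * g i ω) a) :
    Mom μ (fun ω => ∑ i ∈ J, g i ω) a := by
  have hc : (0 : ℝ) < J.card := by exact_mod_cast hJ.card_pos
  have hi : Integrable (fun ω => ∑ i ∈ J, (J.card : ℝ)⁻¹ * Real.exp (J.card * g i ω)) μ :=
    integrable_finset_sum _ fun i hi => (h i hi).1.const_mul _
  have h1 : Integrable (fun ω => Real.exp (∑ i ∈ J, g i ω)) μ := by
    refine hi.mono' (Real.measurable_exp.comp (Finset.measurable_sum _ hm)).aestronglyMeasurable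
      (Eventually.of_forall fun ω => ?_)
    rw [Real.norm_of_nonneg (Real.exp_pos _).le]
    exact zb_exp hJ _
  refine ⟨h1, (integral_mono h1 hi fun ω => zb_exp hJ _).trans ?_⟩
  rw [integral_finset_sum _ fun i hi => (h i hi).1.const_mul _]
  calc _ ≤ ∑ _i ∈ J, (J.card : ℝ)⁻¹ * a := by
        refine sum_le_sum fun i hi => ?_
        rw [integral_const_mul]
        exact mul_le_mul_of_nonneg_left (h i hi).2 (by positivity)
    _ = a := by
        rw [sum_const, nsmul_eq_mul, ← mul_assoc, mul_inv_cancel₀ hc.ne', one_mul]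

theorem ZMB.mono {μ : Measure Om} {f : Om → ℝ} {b c : ℝ} (h : ZMB μ f b) (hb : b ≤ c) :
    ZMB μ f c :=
  ⟨h.1, fun t ht hc => h.2 t ht ((mul_le_mul_of_nonneg_left hb ht).trans hc)⟩

theorem ZMB.smul {μ : Measure Om} {f : Om → ℝ} {b w : ℝ} (h : ZMB μ f b) (hw : 0 ≤ w) :
    ZMB μ (fun ω => w * f ω) (w * b) := by
  refine ⟨h.1.const_mul w, fun t ht hc => ?_⟩
  have := h.2 (t * w) (mul_nonneg ht hw) (by rwa [mul_assoc])
  simpa only [mul_assoc] using this

theorem zb_sum {μ : Measure Om} {ι : Type} {J : Finset ι} (hJ : J.Nonempty)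
    {f : ι → Om → ℝ} {b : ℝ} (h : ∀ i ∈ J, ZMB μ (f i) b) :
    ZMB μ (fun ω => ∑ i ∈ J, f i ω) (J.card * b) := by
  refine ⟨Finset.measurable_sum _ fun i hi => (h i hi).1, fun t ht hc => ?_⟩
  have := zb_avg (μ := μ) hJ (g := fun i ω => t * f i ω) (a := 5 / 4)
    (fun i hi => (h i hi).1.const_mul t) fun i hi => by
      have k := (h i hi).2 (J.card * t) (by positivity) (by linarith)
      simpa only [mul_assoc] using k
  simpa only [mul_sum] using this

theorem ZMB.add {μ : Measure Om} {f g : Om → ℝ} {b : ℝ} (h : ZMB μ f b) (k : ZMB μ g b) :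
    ZMB μ (fun ω => f ω + g ω) (2 * b) := by
  have := zb_sum (μ := μ) (J := (univ : Finset Bool)) univ_nonempty
    (f := fun i => if i then f else g) (b := b) (fun i _ => by cases i <;> simpa)
  simpa using this

theorem ZMB.sum {μ : Measure Om} [IsProbabilityMeasure μ] {ι : Type} {J : Finset ι}
    {f : ι → Om → ℝ} {b : ℝ} (h : ∀ i ∈ J, ZMB μ (f i) b) :
    ZMB μ (fun ω => ∑ i ∈ J, f i ω) (J.card * b) := by
  rcases J.eq_empty_or_nonempty with rfl | hJ
  · refine ⟨by simp, fun t _ _ => ⟨by simp, ?_⟩⟩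
    simp
    norm_num
  · exact zb_sum hJ h

theorem zb_disj {l w : ℕ} (hw : 2 * w < l) {B C : P} (hne : B ≠ C) (h1 : B.1 % 2 = C.1 % 2)
    (h2 : B.2 % 2 = C.2 % 2) : Disjoint (fat l w B : Set P) (fat l w C : Set P) := by
  have key : ∀ a b x : ℤ, a + 2 ≤ b → x ≤ (a + 1) * l + w → b * l - w ≤ x → False := by
    intro a b x hab hx hy
    have hl : (2 * w : ℤ) < l := by exact_mod_cast hw
    have : (a + 2) * (l : ℤ) ≤ b * l := mul_le_mul_of_nonneg_right hab (by positivity)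
    nlinarith
  rw [Set.disjoint_left]
  intro y hB hC
  simp only [fat, mem_coe, mem_product, mem_Icc] at hB hC
  have : B.1 + 2 ≤ C.1 ∨ C.1 + 2 ≤ B.1 ∨ B.2 + 2 ≤ C.2 ∨ C.2 + 2 ≤ B.2 := by
    by_contra hh
    exact hne (Prod.ext (by omega) (by omega))
  rcases this with h | h | h | h
  · exact key _ _ _ h hB.1.2 hC.1.1
  · exact key _ _ _ h hC.1.2 hB.1.1
  · exact key _ _ _ h hB.2.2 hC.2.1
  · exact key _ _ _ h hC.2.2 hB.2.1

/-- independent blocks -/
theorem zb_ind (h_ind : S_ind) (m : Measure ℝ) [IsProbabilityMeasure m] {S : Finset P}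
    {f : P → Om → ℝ} {D : P → Set P} {a : ℝ} (hm : ∀ B ∈ S, Measurable (f B))
    (hd : ∀ B ∈ S, ∀ ω ω', (∀ i, ∀ y ∈ D B, ω (i, y) = ω' (i, y)) → f B ω = f B ω')
    (hD : ∀ B ∈ S, ∀ C ∈ S, B ≠ C → Disjoint (D B) (D C))
    (h : ∀ B ∈ S, Mom (mu0 m) (f B) a) :
    Mom (mu0 m) (fun ω => ∑ B ∈ S, f B ω) (a ^ S.card) := by
  obtain ⟨h1, h2⟩ := h_ind m P S D (fun B ω => ((Real.exp (f B ω) : ℝ) : ℂ))
    (fun B hB => ⟨⟨Complex.measurable_ofReal.comp (Real.measurable_exp.comp (hm B hB)),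
      fun ω ω' hh => by simp only [hd B hB ω ω' hh]⟩, (h B hB).1.ofReal⟩) hD
  have e : ∀ ω, ∏ B ∈ S, ((Real.exp (f B ω) : ℝ) : ℂ) =
      ((Real.exp (∑ B ∈ S, f B ω) : ℝ) : ℂ) := fun ω => by
    rw [Real.exp_sum, Complex.ofReal_prod]
  simp only [e] at h1 h2
  refine ⟨by simpa only [RCLike.re_to_complex, Complex.ofReal_re] using h1.re, ?_⟩
  simp only [integral_complex_ofReal] at h2
  rw [← Complex.ofReal_prod, Complex.ofReal_inj] at h2
  rw [h2, ← prod_const]
  exact prod_le_prod (fun B _ => integral_nonneg fun ω => (Real.exp_pos _).le)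
    fun B hB => (h B hB).2

theorem zmom_col (h_ind : S_ind) (m : Measure ℝ) [IsProbabilityMeasure m] {S : Finset P} {f : P → Om → ℝ}
    {l w : ℕ} {a : ℝ} (ha : 1 ≤ a) (hw : 2 * w < l) (hm : ∀ B ∈ S, Measurable (f B))
    (hd : ∀ B ∈ S, ∀ ω ω', (∀ i, ∀ y ∈ fat l w B, ω (i, y) = ω' (i, y)) → f B ω = f B ω')
    (h : ∀ B ∈ S, Mom (mu0 m) (fun ω => 4 * f B ω) a) :
    Mom (mu0 m) (fun ω => ∑ B ∈ S, f B ω) (a ^ S.card) := by
  set cl : P → Bool × Bool := fun B => (decide (B.1 % 2 = 0), decide (B.2 % 2 = 0)) with hcl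
  have e : (fun ω => ∑ B ∈ S, f B ω) =
      fun ω => ∑ c : Bool × Bool, ∑ B ∈ S.filter (fun B => cl B = c), f B ω := by
    funext ω
    rw [sum_fiberwise]
  rw [e]
  refine zb_avg univ_nonempty
    (fun c _ => Finset.measurable_sum _ fun B hB => hm B (mem_filter.1 hB).1) fun c _ => ?_
  have k := zb_ind h_ind m (S := S.filter fun B => cl B = c) (f := fun B ω => 4 * f B ω)
    (D := fun B => (fat l w B : Set P)) (a := a)
    (fun B hB => (hm B (mem_filter.1 hB).1).const_mul 4)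
    (fun B hB ω ω' hh => by
      simp only [hd B (mem_filter.1 hB).1 ω ω' fun i y hy => hh i y (mem_coe.2 hy)])
    (fun B hB C hC hne => by
      have h1 := (mem_filter.1 hB).2.trans (mem_filter.1 hC).2.symm
      simp only [hcl, Prod.mk.injEq, decide_eq_decide] at h1
      exact zb_disj hw hne (by omega) (by omega))
    (fun B hB => h B (mem_filter.1 hB).1)
  have c4 : ((univ : Finset (Bool × Bool)).card : ℝ) = 4 := by simp
  rw [c4]
  simp only [← mul_sum] at k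
  exact ⟨k.1, k.2.trans (pow_le_pow_right₀ ha (card_le_card (filter_subset _ _)))⟩

end Pool.Agent.Lib.MP_9cc147_pr.Cx
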