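import Pool.Agent.Lib.MP_9cc147_pr.Cx.Z.Mode
import Pool.Agent.Lib.MP_9cc147_pr.Cx.Z.Mb
import Pool.Agent.Lib.MP_9cc147_pr.Cx.K0

/-! Exponential moments of the noise. -/

open scoped Classical Topology
open Finset MeasureTheory ProbabilityTheory Filter

noncomputable section
namespace Pool.Agent.Lib.MP_9cc147_pr.Cx

theorem zm_prob (m : Measure ℝ) [IsProbabilityMeasure m] : IsProbabilityMeasure (mu0 m) := by
  have : ∀ i : ℕ × P, IsProbabilityMeasure (if i.1 < 4 then m else gaussianReal 0 1) :=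
    fun i => by split_ifs <;> infer_instance
  unfold mu0
  infer_instance

theorem zm_n2cf (θ : P → ℝ) (p : P) : n2 (cf θ) p =
    (θ (p + (1, 0)) - 2 * θ p + θ (p - (1, 0))) ^ 2 +
      (θ (p + (0, 1)) - 2 * θ p + θ (p - (0, 1))) ^ 2 +
      (θ (p + (1, 1)) - θ (p + (1, 0)) - θ (p + (0, 1)) + θ p) ^ 2 := by
  simp only [n2, cf]
  norm_cast
  simp only [Real.norm_eq_abs, sq_abs]

theorem zm_card (l : ℕ) (hl : 2 ≤ l) (B : P) : ((nb l B).card : ℝ) ≤ 4 * (l : ℝ) ^ 2 := by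
  have h : ∀ x : ℤ, (Icc (x * l - (l / 4 : ℕ)) ((x + 1) * l + (l / 4 : ℕ))).card ≤ 2 * l :=
    fun x => by
      rw [Int.card_Icc, add_mul]
      omega
  have : (nb l B).card ≤ 2 * l * (2 * l) := by
    rw [nb, fat, card_product]
    exact Nat.mul_le_mul (h _) (h _)
  calc ((nb l B).card : ℝ) ≤ (2 * l * (2 * l) : ℕ) := by exact_mod_cast this
    _ = _ := by push_cast; ring

section
variable {μ : Measure Om} [IsProbabilityMeasure μ] {n : ℕ} {ζ : Om → P → ℝ} {s : P → ℝ} {c : ℝ}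

omit [IsProbabilityMeasure μ] in
theorem zm_D (h : ZMode μ n ζ s) (hn : 1 ≤ n) (D : (P → ℝ) → ℝ) (hl : IsLinearMap ℝ D) {e : ℕ}
    (hD : ∀ a, D (zsn n a) ^ 2 ≤ (2 / n) ^ 2 * zlm n a ^ e)
    (hc : (2 / n : ℝ) ^ 2 * ∑ a ∈ inn n, zlm n a ^ e * s a ≤ c) :
    ZMB μ (fun ω => D (ζ ω) ^ 2) (8 * c) :=
  h.mb hn (hl.mk' D) (le_trans (by
    rw [mul_sum]
    exact sum_le_sum fun a ha => by
      rw [← mul_assoc]
      exact mul_le_mul_of_nonneg_right (hD a) (h.pos a ha)) hc)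

theorem zm_n1 (h : ZMode μ n ζ s) (hn : 1 ≤ n)
    (hc : (2 / n : ℝ) ^ 2 * ∑ a ∈ inn n, zlm n a ^ 1 * s a ≤ c) (x : P) :
    ZMB μ (fun ω => n1 (cf (ζ ω)) x) (16 * c) := by
  have k := (ZMB.sum (J := (univ : Finset (Fin 4))) fun d _ => zm_D h hn
    (fun f => dg f x d) ⟨fun f g => by simp only [dg, Pi.add_apply]; ring,
      fun r f => by simp only [dg, Pi.smul_apply, smul_eq_mul]; ring⟩
    (fun a => by rw [pow_one]; exact zsn_d1 n a x d) hc).smul (w := 1 / 2) (by norm_num)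
  simp only [zn1_cf]
  refine ZMB.mono k (le_of_eq ?_)
  simp only [card_univ, Fintype.card_fin]
  push_cast
  ring

omit [IsProbabilityMeasure μ] in
theorem zm_n2 (h : ZMode μ n ζ s) (hn : 1 ≤ n) (c0 : 0 ≤ c)
    (hc : (2 / n : ℝ) ^ 2 * ∑ a ∈ inn n, zlm n a ^ 2 * s a ≤ c) (p : P) :
    ZMB μ (fun ω => n2 (cf (ζ ω)) p) (32 * c) := by
  have k1 := zm_D h hn (fun f => f (p + (1, 0)) - 2 * f p + f (p - (1, 0)))
    ⟨fun f g => by simp only [Pi.add_apply]; ring,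
      fun r f => by simp only [Pi.smul_apply, smul_eq_mul]; ring⟩ (fun a => (zsn_d2 n a p).1) hc
  have k2 := zm_D h hn (fun f => f (p + (0, 1)) - 2 * f p + f (p - (0, 1)))
    ⟨fun f g => by simp only [Pi.add_apply]; ring,
      fun r f => by simp only [Pi.smul_apply, smul_eq_mul]; ring⟩ (fun a => (zsn_d2 n a p).2.1) hc
  have k3 := zm_D h hn (fun f => f (p + (1, 1)) - f (p + (1, 0)) - f (p + (0, 1)) + f p)
    ⟨fun f g => by simp only [Pi.add_apply]; ring,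
      fun r f => by simp only [Pi.smul_apply, smul_eq_mul]; ring⟩ (fun a => (zsn_d2 n a p).2.2) hc
  simp only [zm_n2cf]
  exact ZMB.mono ((k1.add k2).add (k3.mono (by linarith))) (by linarith)

theorem zm_Nf (h : ZMode μ n ζ s) (hn : 1 ≤ n) (c0 : 0 ≤ c) {l : ℕ} (hl : 2 ≤ l)
    (h1 : ((l : ℝ) ^ 2) ^ 1 * ((2 / n : ℝ) ^ 2 * ∑ a ∈ inn n, zlm n a ^ 1 * s a) ≤ c)
    (h2 : ((l : ℝ) ^ 2) ^ 2 * ((2 / n : ℝ) ^ 2 * ∑ a ∈ inn n, zlm n a ^ 2 * s a) ≤ c) (B : P) :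
    ZMB μ (fun ω => Nf l (cf (ζ ω)) (nb l B)) (256 * c) := by
  have l0 : (0 : ℝ) < (l : ℝ) ^ 2 := by
    have : 0 < l := by omega
    positivity
  rw [pow_one, ← le_div_iff₀' l0] at h1
  rw [← le_div_iff₀' (pow_pos l0 2)] at h2
  have c1 : 0 ≤ c / (l : ℝ) ^ 2 := div_nonneg c0 l0.le
  refine ZMB.mono (ZMB.sum (b := 2 * (32 * (c / (l : ℝ) ^ 2))) fun p _ => ZMB.add
    ((zm_n1 h hn h1 p).mono (by linarith))
    (((zm_n2 h hn (by positivity) h2 p).smul l0.le).mono (le_of_eq (by field_simp)))) ?_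
  refine (mul_le_mul_of_nonneg_right (zm_card l hl B) (by positivity)).trans (le_of_eq ?_)
  field_simp
  ring

theorem zm_N0 (h : ZMode μ n ζ s) (hn : 1 ≤ n) (c0 : 0 ≤ c) {l : ℕ} (hl : 2 ≤ l)
    (h0 : ((l : ℝ) ^ 2) ^ 0 * ((2 / n : ℝ) ^ 2 * ∑ a ∈ inn n, zlm n a ^ 0 * s a) ≤ c)
    (h1 : ((l : ℝ) ^ 2) ^ 1 * ((2 / n : ℝ) ^ 2 * ∑ a ∈ inn n, zlm n a ^ 1 * s a) ≤ c)
    (h2 : ((l : ℝ) ^ 2) ^ 2 * ((2 / n : ℝ) ^ 2 * ∑ a ∈ inn n, zlm n a ^ 2 * s a) ≤ c) (B : P) :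
    ZMB μ (fun ω => N0 l (cf (ζ ω)) (nb l B)) (512 * c) := by
  have l0 : (0 : ℝ) < (l : ℝ) ^ 2 := by
    have : 0 < l := by omega
    positivity
  rw [pow_zero, one_mul] at h0
  have k := ZMB.sum (J := nb l B) fun p _ => (zm_D h hn (fun f => f p) ⟨fun _ _ => rfl, fun _ _ => rfl⟩
    (fun a => by rw [pow_zero, mul_one]; exact zsn_d0 n a p) h0).smul (inv_pos.2 l0).le
  have e : ∀ ω, ∑ p ∈ nb l B, ‖cf (ζ ω) p‖ ^ 2 / (l : ℝ) ^ 2 =
      ∑ p ∈ nb l B, ((l : ℝ) ^ 2)⁻¹ * ζ ω p ^ 2 := fun ω => sum_congr rfl fun p _ => by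
    rw [cf, Complex.norm_real, Real.norm_eq_abs, sq_abs, div_eq_inv_mul]
  simp only [N0, e]
  refine ZMB.mono ((zm_Nf h hn c0 hl h1 h2 B).add (ZMB.mono k ?_)) (by linarith)
  refine (mul_le_mul_of_nonneg_right (zm_card l hl B) (by positivity)).trans ?_
  rw [show 4 * (l : ℝ) ^ 2 * (((l : ℝ) ^ 2)⁻¹ * (8 * c)) = 32 * c by field_simp; ring]
  linarith

end

theorem zm_fat {l w : ℕ} {B p u : P} (hp : p ∈ fat l w B) (h1 : |u.1| ≤ 1) (h2 : |u.2| ≤ 1) :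
    p + u ∈ fat l (w + 1) B := by
  simp only [fat, mem_product, mem_Icc, Prod.fst_add, Prod.snd_add, abs_le] at *
  push_cast
  omega

theorem zm_loc {l : ℕ} {B : P} {θ θ' : P → ℝ} (h : ∀ p ∈ fat l (l / 4 + 1) B, θ p = θ' p) :
    N0 l (cf θ) (nb l B) = N0 l (cf θ') (nb l B) := by
  have k : ∀ p ∈ nb l B, ∀ u : P, |u.1| ≤ 1 → |u.2| ≤ 1 → θ (p + u) = θ' (p + u) :=
    fun p hp u h1 h2 => h _ (zm_fat hp h1 h2)
  have k0 : ∀ p ∈ nb l B, θ p = θ' p := fun p hp => by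
    simpa using k p hp 0 (by simp) (by simp)
  have kc : ∀ p ∈ nb l B, ∀ d, θ (p + crn d) = θ' (p + crn d) := fun p hp d =>
    k p hp _ (by fin_cases d <;> simp [crn]) (by fin_cases d <;> simp [crn])
  unfold N0 Nf
  congr 1 <;> refine sum_congr rfl fun p hp => ?_
  · rw [zn1_cf, zn1_cf, zm_n2cf, zm_n2cf, sub_eq_add_neg p, sub_eq_add_neg p, k0 p hp,
      k p hp (1, 0) (by simp) (by simp), k p hp (0, 1) (by simp) (by simp),
      k p hp (1, 1) (by simp) (by simp), k p hp (-(1, 0)) (by simp) (by simp),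
      k p hp (-(0, 1)) (by simp) (by simp)]
    simp only [dg, kc p hp]
  · rw [cf, cf, k0 p hp]

theorem zm_cell {L : ℕ} (hL : 0 < L) (S : Finset P) (f : P → ℝ) :
    ∑ x ∈ under L S, f x = ∑ B ∈ S, ∑ x ∈ cell L B, f x := by
  refine sum_biUnion fun B _ B' _ hne => disjoint_left.2 fun x h1 h2 => hne ?_
  have l0 : (0 : ℤ) < L := by exact_mod_cast hL
  have e : ∀ a b y : ℤ, a * L ≤ y → y < (a + 1) * L → b * L ≤ y → y < (b + 1) * L → a = b :=
    fun a b y k1 k2 k3 k4 => by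
      have := lt_of_mul_lt_mul_right (k1.trans_lt k4) l0.le
      have := lt_of_mul_lt_mul_right (k3.trans_lt k2) l0.le
      omega
  simp only [cell, mem_product, mem_Ico] at h1 h2
  exact Prod.ext (e _ _ _ h1.1.1 h1.1.2 h2.1.1 h2.1.2) (e _ _ _ h1.2.1 h1.2.2 h2.2.1 h2.2.2)

theorem zm_zw {L m : ℕ} (hn : 1 ≤ L * m) {B x : P} (hB : B ∈ box m) (hx : x ∈ cell L B)
    {ω ω' : Om} (h : ∀ i, ∀ y ∈ fat L 0 B, ω (i, y) = ω' (i, y)) :
    n1 (cf (zw (L * m) ω)) x = n1 (cf (zw (L * m) ω')) x := by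
  have k : ∀ d, zw (L * m) ω (x + crn d) = zw (L * m) ω' (x + crn d) := fun d => by
    have hf : x + crn d ∈ fat L 0 B := by
      simp only [cell, fat, mem_product, mem_Ico, mem_Icc] at hx ⊢
      fin_cases d <;> simp [crn] <;> omega
    have hm := hf
    simp only [box, fat, mem_product, mem_Ico, mem_Icc, Nat.cast_zero, sub_zero, add_zero] at hB hm
    have l0 : (0 : ℤ) ≤ L := Nat.cast_nonneg L
    have e : ∀ a y : ℤ, 0 ≤ a → a < m → a * L ≤ y → y ≤ (a + 1) * L → fold (L * m) y = y :=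
      fun a y k1 k2 k3 k4 => (zfold_mid ((mul_nonneg k1 l0).trans k3) (k4.trans (by
        push_cast
        rw [mul_comm (L : ℤ)]
        exact mul_le_mul_of_nonneg_right k2 l0)) hn).1
    simp only [zw, ext, Pi.smul_apply, e _ _ hB.1.1 hB.1.2 hm.1.1 hm.1.2,
      e _ _ hB.2.1 hB.2.2 hm.2.1 hm.2.2, Prod.mk.eta, h 4 _ hf]
  simp only [zn1_cf, dg, k]

theorem zm_box (m : ℕ) : (box m).card = m * m := by
  simp [box]

theorem zm_white {n : ℕ} (hn : 1 ≤ n) :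
    (2 / n : ℝ) ^ 2 * ∑ a ∈ inn n, zlm n a ^ 1 * (1 / 16) ≤ 2 := by
  have n0 : (0 : ℝ) < n := by exact_mod_cast hn
  have h1 : (inn n).card ≤ n * n := by
    rw [inn, card_product, Int.card_Ioo]
    exact Nat.mul_le_mul (by omega) (by omega)
  have h2 : ((inn n).card : ℝ) ≤ n * n := by exact_mod_cast h1
  have h3 : ∑ a ∈ inn n, zlm n a ^ 1 * (1 / 16) ≤ (inn n).card • (1 / 2 : ℝ) :=
    sum_le_card_nsmul _ _ _ fun a ha => by linarith [(zlm_bd ha).2]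
  rw [nsmul_eq_mul] at h3
  refine (mul_le_mul_of_nonneg_left (h3.trans (mul_le_mul_of_nonneg_right h2 (by norm_num)))
    (by positivity)).trans (le_of_eq ?_)
  field_simp

theorem zm_up {μ : Measure Om} {f : Om → ℝ} {a b : ℝ} (h : Mom μ f a) (hab : a ≤ b) : Mom μ f b :=
  ⟨h.1, h.2.trans hab⟩

theorem t_zmom (h_ind : S_ind) (h_zel : S_zel) : S_zmom := by
  choose! C C0 hC using fun L (hL : 100 ≤ L) => zsum_lev hL
  filter_upwards [fp_L 100, fp_κ (fun L _ => (2048 * ((L : ℝ) + 1) ^ 3 * (|C L| + 1))⁻¹)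
    fun L _ => by positivity] with q ⟨_, hL⟩ ⟨κ0, hκ⟩ b j ⟨b1, b2, _⟩
  have c0 := C0 _ hL
  have L1 : (1 : ℝ) ≤ q.L := by exact_mod_cast le_trans (by norm_num) hL
  rw [abs_of_pos c0, ← one_div, le_div_iff₀ (by positivity)] at hκ
  have hk : q.κ * (2048 * (q.L : ℝ) ^ 3 * (C q.L + 1)) ≤ 1 := le_trans (by gcongr; linarith) hκ
  have L3 : (q.L : ℝ) ≤ (q.L : ℝ) ^ 3 := le_self_pow₀ L1 (by norm_num)
  have t0 : 0 ≤ q.L * q.κ := by positivity
  have hl : ∀ i, 100 ≤ q.l i := fun i => hL.trans (Nat.le_self_pow (by omega) _)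
  have hn : 1 ≤ q.n b := Nat.mul_pos (by omega) (pow_pos (by omega) _)
  have en : ∀ i ≤ b.2, q.n b = q.L ^ (i + 1) * q.m b i := fun i hi => by
    rw [Par.n, Par.m, mul_left_comm, ← pow_add]
    congr 2
    omega
  have : IsProbabilityMeasure PP := h_zel.1 ▸ zm_prob _
  refine ⟨fun S hS => ?_, ?_, fun m _ S hS => ?_⟩
  · have k := fun B => zm_N0 (zmode_zeta q.L j hn) hn c0.le (l := q.l j) (by linarith [hl j])
      (hC _ hL _ j 0 (by omega)).1 (hC _ hL _ j 1 (by omega)).1 (hC _ hL _ j 2 le_rfl).1 B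
    simp only [mul_sum]
    rw [h_zel.1] at k ⊢
    refine zmom_col h_ind _ (l := q.l j) (w := q.l j / 4 + 1 + q.l j / 8) one_le_two
      (by have := hl j; omega) (fun B _ => (k B).1.const_mul _) (fun B hB ω ω' h => ?_)
      fun B _ => ?_
    · rw [zm_loc fun p hp => ?_]
      rw [en j b2]
      exact zeta_loc (hS hB) (by omega) hp h
    · simp only [← mul_assoc]
      refine zm_up ((k B).2 _ (by positivity) (le_trans ?_ hk)) (by norm_num)
      nlinarith [mul_le_mul_of_nonneg_right L3 (mul_pos κ0 c0).le, mul_pos κ0 (pow_pos (by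
        linarith : (0 : ℝ) < q.L) 3)]
  · have k := ZMB.sum (J := box (q.m b b.2)) fun B _ => zm_Nf (zmode_zr (lev q.L b.2) hn) hn c0.le
      (l := q.l b.2) (by linarith [hl b.2]) ((hC _ hL _ b.2 1 (by omega)).2 le_rfl)
      ((hC _ hL _ b.2 2 le_rfl).2 one_le_two) B
    refine zm_up (k.2 _ t0 (le_trans ?_ hk)) (by norm_num)
    have m2 : q.m b b.2 ≤ 2 * q.L := by
      rw [Par.m, Nat.add_sub_cancel_left, pow_one]
      exact Nat.mul_le_mul_right _ (by omega)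
    have m3 : ((box (q.m b b.2)).card : ℝ) ≤ 2 * q.L * (2 * q.L) := by
      rw [zm_box]
      exact_mod_cast Nat.mul_le_mul m2 m2
    refine (mul_le_mul_of_nonneg_left (mul_le_mul_of_nonneg_right m3 (by positivity)) t0).trans ?_
    nlinarith [mul_pos (mul_pos κ0 c0) (pow_pos (by linarith : (0 : ℝ) < q.L) 3),
      mul_pos κ0 (pow_pos (by linarith : (0 : ℝ) < q.L) 3)]
  · have := zm_prob m
    have k := fun B => ZMB.sum (J := cell q.L B) fun x _ =>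
      zm_n1 (zmode_zw m hn) hn (zm_white hn) x
    simp only [zm_cell (by omega : 0 < q.L)]
    simp only [mul_sum S]
    refine zmom_col h_ind _ (l := q.L) (w := 0) (by norm_num) (by omega)
      (fun B _ => (k B).1.const_mul _) (fun B hB ω ω' h => ?_) fun B _ => ?_
    · have e := en 0 (Nat.zero_le _)
      rw [zero_add, pow_one] at e
      rw [e] at hn ⊢
      rw [sum_congr rfl fun x hx => zm_zw hn (hS hB) hx h]
    · simp only [← mul_assoc]
      refine (k B).2 _ (by positivity) (le_trans ?_ hk)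
      have : ((cell q.L B).card : ℝ) = q.L * q.L := by
        simp [cell, add_mul]
      rw [this]
      nlinarith [mul_pos (mul_pos κ0 c0) (pow_pos (by linarith : (0 : ℝ) < q.L) 3),
        mul_pos κ0 (pow_pos (by linarith : (0 : ℝ) < q.L) 3)]

end Pool.Agent.Lib.MP_9cc147_pr.Cx
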