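import Pool.Agent.Lib.MP_9cc147_pr.Cx.Z.Sin

/-! The energy in modes and the square root. -/

open scoped Classical Topology
open Finset MeasureTheory ProbabilityTheory Filter

noncomputable section
namespace Pool.Agent.Lib.MP_9cc147_pr.Cx

theorem ze_shift {n : ℕ} {f : P → ℝ} (hf : Dir n f) (F : P → ℝ) (c : P)
    (h1 : c.1 = 0 ∨ c.1 = 1) (h2 : c.2 = 0 ∨ c.2 = 1) :
    ∑ x ∈ box n, f (x + c) * F x = ∑ p ∈ inn n, f p * F (p - c) := by
  have hinj : ∀ x ∈ box n, ∀ y ∈ box n, x + c = y + c → x = y := fun x _ y _ h =>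
    add_right_cancel h
  have e1 : ∑ x ∈ box n, f (x + c) * F x =
      ∑ p ∈ (box n).image (· + c), f p * F (p - c) := by
    rw [sum_image hinj]
    simp
  rw [e1]
  symm
  apply sum_subset
  · intro p hp
    simp only [inn, mem_product, mem_Ioo] at hp
    refine mem_image.2 ⟨p - c, ?_, by simp⟩
    simp only [box, mem_product, mem_Ico, Prod.fst_sub, Prod.snd_sub]
    omega
  · intro p hp hn
    obtain ⟨x, hx, rfl⟩ := mem_image.1 hp
    have : x + c ∈ ring n := by
      refine mem_sdiff.2 ⟨?_, hn⟩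
      simp only [box, mem_product, mem_Ico] at hx
      simp only [sqr, mem_product, mem_Icc, Prod.fst_add, Prod.snd_add]
      omega
    rw [zdir_ring hf this, zero_mul]

theorem zgreen {n : ℕ} {f g : P → ℝ} (hf : Dir n f) :
    ∑ x ∈ box n, (1 / 2) * ∑ d, dg f x d * dg g x d = ∑ p ∈ inn n, f p * Lap g p := by
  have e1 : ∀ x : P, (1 / 2) * ∑ d, dg f x d * dg g x d =
      f (x + (1, 0)) * (g (x + (1, 0)) - (g (x + (1, 1)) + g (x + (0, 0))) / 2) +
      f (x + (1, 1)) * (g (x + (1, 1)) - (g (x + (0, 1)) + g (x + (1, 0))) / 2) +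
      f (x + (0, 1)) * (g (x + (0, 1)) - (g (x + (0, 0)) + g (x + (1, 1))) / 2) +
      f (x + (0, 0)) * (g (x + (0, 0)) - (g (x + (1, 0)) + g (x + (0, 1))) / 2) := by
    intro x
    have c0 : crn 0 = (1, 0) := rfl
    have c1 : crn 1 = (1, 1) := rfl
    have c2 : crn 2 = (0, 1) := rfl
    have c3 : crn 3 = (0, 0) := rfl
    have d0 : crn (0 + 1) = (1, 1) := rfl
    have d1 : crn (1 + 1) = (0, 1) := rfl
    have d2 : crn (2 + 1) = (0, 0) := rfl
    have d3 : crn (3 + 1) = (1, 0) := rfl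
    simp only [dg, Fin.sum_univ_four, c0, c1, c2, c3, d0, d1, d2, d3]
    ring
  simp only [e1, sum_add_distrib]
  rw [ze_shift hf _ (1, 0) (by simp) (by simp), ze_shift hf _ (1, 1) (by simp) (by simp),
    ze_shift hf _ (0, 1) (by simp) (by simp), ze_shift hf _ (0, 0) (by simp) (by simp)]
  simp only [← sum_add_distrib]
  refine sum_congr rfl fun p _ => ?_
  have hL : Lap g p = 4 * g p - (g (p.1 + 1, p.2) + g (p.1, p.2 + 1) + g (p.1 - 1, p.2) +
      g (p.1, p.2 - 1)) := by
    obtain ⟨a, b⟩ := p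
    show 4 * g (a, b) - ∑ d, g ((a, b) + dir d) = _
    simp [Fin.sum_univ_four, dir, sub_eq_add_neg]
  rw [hL]
  obtain ⟨a, b⟩ := p
  simp only [Prod.mk_sub_mk, Prod.mk_add_mk, sub_add_cancel, add_zero, sub_zero]
  ring

theorem ze_dg (θ : P → ℝ) (x : P) (d : Fin 4) : dg (cf θ) x d = ((dg θ x d : ℝ) : ℂ) := by
  simp [dg, cf]

theorem zn1_cf (θ : P → ℝ) (x : P) : n1 (cf θ) x = (1 / 2) * ∑ d, dg θ x d ^ 2 := by
  simp only [n1, ze_dg, Complex.norm_real, Real.norm_eq_abs, sq_abs]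

theorem zene {n : ℕ} (hn : 1 ≤ n) {θ : P → ℝ} (h : Dir n θ) :
    ∑ x ∈ box n, n1 (cf θ) x = ∑ a ∈ inn n, zlm n a * zhat n θ a ^ 2 := by
  simp only [zn1_cf, sq]
  rw [zgreen h, zpars]
  refine sum_congr rfl fun a ha => ?_
  rw [zhat_op hn (fun a _ => zsn_lap n a) h ha]
  ring

theorem zen_bg (hu : S_u) {n : ℕ} (hn : 2 ≤ n) {θ : P → ℝ} (h : Dir n θ) (z : ℂ) :
    En (bg n z + cf θ) (box n) =
      z ^ 2 * Rt n + (∑ a ∈ inn n, zlm n a * zhat n θ a ^ 2 : ℝ) := by
  obtain ⟨Cu, hu⟩ := hu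
  have h0 := (hu n hn).2.2.1 θ h
  rw [← zene (by omega) h]
  have e1 : ∀ x d, dg (bg n z + cf θ) x d = z * (dg (uu n) x d : ℝ) + (dg θ x d : ℝ) := by
    intro x d
    simp only [dg, bg, cf, Pi.add_apply]
    push_cast
    ring
  have h0' : ∑ x ∈ box n, ∑ d, ((dg (uu n) x d : ℝ) : ℂ) * ((dg θ x d : ℝ) : ℂ) = 0 := by
    exact_mod_cast h0
  have e2 : ∀ x, (1 / 2 : ℂ) * ∑ d, (z * (dg (uu n) x d : ℝ) + (dg θ x d : ℝ)) ^ 2 =
      z ^ 2 * (n1 (cf (uu n)) x : ℝ) + (n1 (cf θ) x : ℝ) +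
        z * ∑ d, ((dg (uu n) x d : ℝ) : ℂ) * ((dg θ x d : ℝ) : ℂ) := by
    intro x
    simp only [zn1_cf, Fin.sum_univ_four]
    push_cast
    ring
  simp only [En, e1, e2, sum_add_distrib, ← mul_sum, h0', mul_zero, add_zero, Rt]
  push_cast
  rfl

theorem ze_pos {n : ℕ} {p : P} (hp : p ∈ inn n) : 1 ≤ n := by
  simp only [inn, mem_product, mem_Ioo] at hp
  omega

theorem ze_comp {n : ℕ} {p q : P} (hp : p ∈ inn n) (hq : q ∈ inn n) :
    ∑ a ∈ inn n, zsn n a p * zsn n a q = if p = q then 1 else 0 := by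
  rw [← zsn_orth hp hq]
  exact sum_congr rfl fun a _ => by rw [zsn_symm n a p, zsn_symm n a q]

theorem ze_root (n : ℕ) : ∃ G, IsRoot n G := by
  refine ⟨fun p q => ∑ a ∈ inn n, zsn n a p * Real.sqrt (1 / zlm n a - 1 / 16) * zsn n a q,
    fun p q => sum_congr rfl fun a _ => by ring, fun p hp q hq => ?_⟩
  have hn := ze_pos hp
  have hs : ∀ a ∈ inn n, Real.sqrt (1 / zlm n a - 1 / 16) * Real.sqrt (1 / zlm n a - 1 / 16) =
      1 / zlm n a - 1 / 16 := by
    intro a ha
    obtain ⟨h1, h2⟩ := zlm_bd ha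
    apply Real.mul_self_sqrt
    have : 1 / 8 ≤ 1 / zlm n a := one_div_le_one_div_of_le h1 h2
    linarith
  have key : (ext n fun x => ∑ y ∈ inn n,
      (∑ a ∈ inn n, zsn n a x * Real.sqrt (1 / zlm n a - 1 / 16) * zsn n a y) *
      (∑ a ∈ inn n, zsn n a y * Real.sqrt (1 / zlm n a - 1 / 16) * zsn n a q) +
        if x = q then 1 / 16 else 0) =
      ∑ a ∈ inn n, (zsn n a q / zlm n a) • zsn n a := by
    refine zdir_eq hn (zext_dir hn _) (zdir_sum fun a _ => zdir_smul (zsn_dir hn a) _) ?_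
    intro x hx
    rw [zext_inn _ hx]
    have e1 : ∑ y ∈ inn n,
        (∑ a ∈ inn n, zsn n a x * Real.sqrt (1 / zlm n a - 1 / 16) * zsn n a y) *
        (∑ a ∈ inn n, zsn n a y * Real.sqrt (1 / zlm n a - 1 / 16) * zsn n a q) =
        ∑ a ∈ inn n, zsn n a x * (1 / zlm n a - 1 / 16) * zsn n a q := by
      simp only [sum_mul_sum]
      rw [sum_comm]
      refine sum_congr rfl fun a ha => ?_
      rw [sum_comm]
      have : ∀ b ∈ inn n, ∑ y ∈ inn n, zsn n a x * Real.sqrt (1 / zlm n a - 1 / 16) * zsn n a y *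
          (zsn n b y * Real.sqrt (1 / zlm n b - 1 / 16) * zsn n b q) =
          if a = b then zsn n a x * (1 / zlm n a - 1 / 16) * zsn n a q else 0 := by
        intro b hb
        have e : ∑ y ∈ inn n, zsn n a x * Real.sqrt (1 / zlm n a - 1 / 16) * zsn n a y *
            (zsn n b y * Real.sqrt (1 / zlm n b - 1 / 16) * zsn n b q) =
            (zsn n a x * Real.sqrt (1 / zlm n a - 1 / 16) *
              (Real.sqrt (1 / zlm n b - 1 / 16) * zsn n b q)) *
              ∑ y ∈ inn n, zsn n a y * zsn n b y := by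
          rw [mul_sum]
          exact sum_congr rfl fun y _ => by ring
        rw [e, zsn_orth ha hb]
        split_ifs with h
        · subst h
          rw [mul_one]
          linear_combination (zsn n a x * zsn n a q) * hs a ha
        · simp
      rw [sum_congr rfl this, sum_ite_eq, if_pos ha]
    have e2 : (if x = q then (1 / 16 : ℝ) else 0) =
        ∑ a ∈ inn n, zsn n a x * zsn n a q / 16 := by
      rw [← sum_div, ze_comp hx hq]
      split_ifs <;> simp
    rw [e1, e2, ← sum_add_distrib, Finset.sum_apply]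
    refine sum_congr rfl fun a _ => ?_
    simp only [Pi.smul_apply, smul_eq_mul]
    ring
  rw [key, map_sum, Finset.sum_apply, ← ze_comp hp hq]
  refine sum_congr rfl fun a ha => ?_
  rw [map_smul, zsn_lap]
  have := (zlm_bd ha).1.ne'
  simp only [Pi.smul_apply, smul_eq_mul]
  field_simp

theorem zroot (n : ℕ) : IsRoot n (root n) := by
  have h := ze_root n
  unfold root
  rw [dif_pos h]
  exact h.choose_spec

theorem zroot_orth {n : ℕ} {a b : P} (ha : a ∈ inn n) (hb : b ∈ inn n) :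
    ∑ q ∈ inn n, zhat n (root n · q) a * zhat n (root n · q) b =
      if a = b then 1 / zlm n a - 1 / 16 else 0 := by
  have hn := ze_pos ha
  obtain ⟨hs, hr⟩ := zroot n
  have hl := (zlm_bd ha).1.ne'
  have k1 : ∀ q ∈ inn n, ∑ y ∈ inn n, zhat n (root n · y) a * root n y q =
      (1 / zlm n a - 1 / 16) * zsn n a q := by
    intro q hq
    have h1 := zhat_op hn (fun a _ => zsn_lap n a)
      (zext_dir hn fun x => ∑ y ∈ inn n, root n x y * root n y q + if x = q then 1 / 16 else 0) ha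
    have h2 : zhat n (Lap (ext n fun x => ∑ y ∈ inn n, root n x y * root n y q +
        if x = q then 1 / 16 else 0)) a = zsn n a q := by
      unfold zhat
      rw [sum_congr rfl fun p hp => by rw [hr p hp q hq]]
      simp [hq]
    have h3 : zhat n (ext n fun x => ∑ y ∈ inn n, root n x y * root n y q +
        if x = q then 1 / 16 else 0) a =
        ∑ y ∈ inn n, zhat n (root n · y) a * root n y q + zsn n a q / 16 := by
      unfold zhat
      rw [sum_congr rfl fun p hp => by rw [zext_inn _ hp]]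
      simp only [mul_add, sum_add_distrib, mul_sum, sum_mul]
      congr 1
      · rw [sum_comm]
        exact sum_congr rfl fun y _ => sum_congr rfl fun x _ => by ring
      · simp [hq, div_eq_mul_inv]
    rw [h2, h3] at h1
    field_simp
    linear_combination (-16 : ℝ) * h1
  have k2 : ∑ q ∈ inn n, zhat n (root n · q) a * zhat n (root n · q) b =
      ∑ q ∈ inn n, zsn n b q * ∑ y ∈ inn n, zhat n (root n · y) a * root n y q := by
    simp only [mul_sum]
    rw [sum_comm]
    refine sum_congr rfl fun y _ => ?_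
    conv_lhs => rw [show zhat n (root n · y) b = ∑ p ∈ inn n, zsn n b p * root n p y from rfl,
      mul_sum]
    exact sum_congr rfl fun p _ => by rw [hs p y]; ring
  rw [k2, sum_congr rfl fun q hq => by rw [k1 q hq]]
  have k3 : ∑ q ∈ inn n, zsn n b q * ((1 / zlm n a - 1 / 16) * zsn n a q) =
      (1 / zlm n a - 1 / 16) * ∑ q ∈ inn n, zsn n a q * zsn n b q := by
    rw [mul_sum]
    exact sum_congr rfl fun q _ => by ring
  rw [k3, zsn_orth ha hb]
  split_ifs <;> simp

end Pool.Agent.Lib.MP_9cc147_pr.Cx
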