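import Pool.Agent.Lib.MP_9cc147_pr.Cx.Z.Set

/-! Gaussian laws of linear forms. -/

open scoped Classical Topology
open Finset MeasureTheory ProbabilityTheory Filter

noncomputable section
namespace Pool.Agent.Lib.MP_9cc147_pr.Cx

instance zgp_prob {α : Type} [Fintype α] (s : α → ℝ) : IsProbabilityMeasure (zgp s) := by
  unfold zgp; infer_instance

theorem zlw_char1 {v : ℝ} (hv : 0 ≤ v) (c : ℝ) :
    ∫ y, Complex.exp (Complex.I * (c * y : ℝ)) ∂gaussianReal 0 v.toNNReal =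
      Complex.exp (-(c ^ 2 * v : ℝ) / 2) := by
  have h := charFun_gaussianReal (μ := 0) (v := v.toNNReal) c
  rw [charFun_apply_real, Real.coe_toNNReal v hv] at h
  have e : (fun y : ℝ => Complex.exp (Complex.I * (c * y : ℝ))) =
      fun y : ℝ => Complex.exp (c * y * Complex.I) := by
    funext y; push_cast; ring_nf
  rw [e, h]
  congr 1
  push_cast; ring

theorem zgp_char {α : Type} [Fintype α] {s : α → ℝ} (hs : ∀ a, 0 ≤ s a) (c : α → ℝ) :
    ∫ y, Complex.exp (Complex.I * (∑ a, c a * y a : ℝ)) ∂zgp s =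
      Complex.exp (-(∑ a, c a ^ 2 * s a : ℝ) / 2) := by
  have e : (fun y : α → ℝ => Complex.exp (Complex.I * (∑ a, c a * y a : ℝ))) =
      fun y : α → ℝ => ∏ a, Complex.exp (Complex.I * (c a * y a : ℝ)) := by
    funext y
    rw [← Complex.exp_sum, ← Finset.mul_sum, Complex.ofReal_sum]
  rw [e, zgp, integral_fintype_prod_eq_prod
    (fun a (x : ℝ) => Complex.exp (Complex.I * (c a * x : ℝ)))]
  rw [Finset.prod_congr rfl fun a _ => zlw_char1 (hs a) (c a), ← Complex.exp_sum,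
    Complex.ofReal_sum, ← Finset.sum_div, Finset.sum_neg_distrib]

theorem zlw_char_inf {ι κ : Type} (ν : ι → Measure ℝ) [∀ i, IsProbabilityMeasure (ν i)]
    (T : Finset κ) (φ : κ → ι) (hφ : Set.InjOn φ T) (hν : ∀ t ∈ T, ν (φ t) = gaussianReal 0 1)
    (w : κ → ℝ) :
    ∫ ω, Complex.exp (Complex.I * (∑ t ∈ T, w t * ω (φ t) : ℝ)) ∂Measure.infinitePi ν =
      Complex.exp (-(∑ t ∈ T, w t ^ 2 : ℝ) / 2) := by
  have hi : Function.Injective fun t : T => φ t := fun a b hab =>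
    Subtype.ext (hφ a.2 b.2 hab)
  have hind : iIndepFun (fun (t : T) (ω : ι → ℝ) => ω (φ t)) (Measure.infinitePi ν) :=
    (iIndepFun_infinitePi (P := ν) (X := fun _ x => x) fun _ => measurable_id).precomp hi
  have hmap : (Measure.infinitePi ν).map (fun ω (t : T) => ω (φ t)) = zgp fun _ : T => 1 := by
    rw [hind.map_fun_eq_pi_map fun t => (measurable_pi_apply _).aemeasurable, zgp]
    congr 1
    funext t
    rw [Measure.infinitePi_map_eval, hν t t.2, Real.toNNReal_one]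
  have h := zgp_char (s := fun _ : T => (1 : ℝ)) (fun _ => zero_le_one) fun t => w t
  rw [← hmap, integral_map
    (measurable_pi_lambda _ fun t : T => measurable_pi_apply (φ t)).aemeasurable
    (Continuous.aestronglyMeasurable (by fun_prop))] at h
  simp only [mul_one] at h
  rw [← Finset.sum_coe_sort T fun t => w t ^ 2, ← h]
  congr 1
  funext ω
  rw [← Finset.sum_coe_sort T fun t => w t * ω (φ t)]

theorem zlaw_lin {ι κ α : Type} [Fintype α] (ν : ι → Measure ℝ) [∀ i, IsProbabilityMeasure (ν i)]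
    (T : Finset κ) (φ : κ → ι) (hφ : Set.InjOn φ T) (hν : ∀ t ∈ T, ν (φ t) = gaussianReal 0 1)
    (v : α → κ → ℝ) (s : α → ℝ)
    (h : ∀ a b, ∑ t ∈ T, v a t * v b t = if a = b then s a else 0) :
    (Measure.infinitePi ν).map (fun ω a => ∑ t ∈ T, v a t * ω (φ t)) = zgp s := by
  have hs : ∀ a, 0 ≤ s a := fun a => by
    have := h a a
    rw [if_pos rfl] at this
    rw [← this]
    exact Finset.sum_nonneg fun t _ => mul_self_nonneg _
  have hm : Measurable fun (ω : ι → ℝ) a => ∑ t ∈ T, v a t * ω (φ t) := by fun_prop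
  refine Measure.ext_of_charFunDual (funext fun L => ?_)
  have hL : ∀ y : α → ℝ, L y = ∑ a, L (Pi.single a 1) * y a := fun y => by
    conv_lhs => rw [← Finset.univ_sum_single y, map_sum]
    refine Finset.sum_congr rfl fun a _ => ?_
    have : (Pi.single a (y a) : α → ℝ) = y a • Pi.single a (1 : ℝ) := by
      rw [← Pi.single_smul, smul_eq_mul, mul_one]
    rw [this, map_smul, smul_eq_mul, mul_comm]
  set c : α → ℝ := fun a => L (Pi.single a 1) with hc
  have e : (fun y : α → ℝ => Complex.exp (L y * Complex.I)) =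
      fun y : α → ℝ => Complex.exp (Complex.I * (∑ a, c a * y a : ℝ)) := by
    funext y
    rw [hL y, mul_comm]
  rw [charFunDual_apply, charFunDual_apply, e, zgp_char hs, integral_map hm.aemeasurable
    (Continuous.aestronglyMeasurable (by fun_prop))]
  have e2 : ∀ ω : ι → ℝ, ∑ a, c a * ∑ t ∈ T, v a t * ω (φ t) =
      ∑ t ∈ T, (∑ a, c a * v a t) * ω (φ t) := fun ω => by
    simp only [Finset.mul_sum, Finset.sum_mul, mul_assoc]
    exact Finset.sum_comm
  simp only [e2]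
  rw [zlw_char_inf ν T φ hφ hν]
  have e3 : ∑ t ∈ T, (∑ a, c a * v a t) ^ 2 = ∑ a, c a ^ 2 * s a := by
    calc ∑ t ∈ T, (∑ a, c a * v a t) ^ 2
        = ∑ t ∈ T, ∑ a, ∑ b, c a * c b * (v a t * v b t) := by
          refine Finset.sum_congr rfl fun t _ => ?_
          rw [sq, Finset.sum_mul_sum]
          exact Finset.sum_congr rfl fun a _ => Finset.sum_congr rfl fun b _ => by ring
      _ = ∑ a, ∑ b, c a * c b * ∑ t ∈ T, v a t * v b t := by
          rw [Finset.sum_comm]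
          refine Finset.sum_congr rfl fun a _ => ?_
          rw [Finset.sum_comm]
          exact Finset.sum_congr rfl fun b _ => (Finset.mul_sum _ _ _).symm
      _ = ∑ a, c a ^ 2 * s a := by
          refine Finset.sum_congr rfl fun a _ => ?_
          simp only [h, mul_ite, mul_zero, Finset.sum_ite_eq, Finset.mem_univ, if_true, sq]
  rw [e3]

theorem zlw_quad1 {v q : ℝ} (hv : 0 ≤ v) (hq : 0 < 1 + q * v) (x : ℝ) :
    ∫ y, Real.exp (-(q * (x + y) ^ 2) / 2) ∂gaussianReal 0 v.toNNReal =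
      (1 + q * v) ^ (-(1 / 2) : ℝ) * Real.exp (-(q / (1 + q * v) * x ^ 2) / 2) := by
  rcases hv.eq_or_lt with rfl | hv
  · simp
  have h0 : v.toNNReal ≠ 0 := by simpa using hv
  have hq1 : 1 + q * v ≠ 0 := hq.ne'
  have hq2 : 1 + v * q ≠ 0 := by rwa [mul_comm]
  have hw : 0 < v / (1 + q * v) := div_pos hv hq
  have h1 : (v / (1 + q * v)).toNNReal ≠ 0 := by simpa using hw
  have key : ∀ y, gaussianPDFReal 0 v.toNNReal y • Real.exp (-(q * (x + y) ^ 2) / 2) =
      ((1 + q * v) ^ (-(1 / 2) : ℝ) * Real.exp (-(q / (1 + q * v) * x ^ 2) / 2)) *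
        gaussianPDFReal (-(q * v * x / (1 + q * v))) (v / (1 + q * v)).toNNReal y := fun y => by
    have a1 : (√(2 * Real.pi * v))⁻¹ =
        (1 + q * v) ^ (-(1 / 2) : ℝ) * (√(2 * Real.pi * (v / (1 + q * v))))⁻¹ := by
      rw [Real.rpow_neg hq.le, ← Real.sqrt_eq_rpow, ← mul_inv, ← Real.sqrt_mul hq.le]
      congr 2
      field_simp
    have a2 : Real.exp (-(y - 0) ^ 2 / (2 * v)) * Real.exp (-(q * (x + y) ^ 2) / 2) =
        Real.exp (-(q / (1 + q * v) * x ^ 2) / 2) *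
          Real.exp (-(y - -(q * v * x / (1 + q * v))) ^ 2 / (2 * (v / (1 + q * v)))) := by
      rw [← Real.exp_add, ← Real.exp_add]
      congr 1
      field_simp
      ring
    rw [gaussianPDFReal, gaussianPDFReal, Real.coe_toNNReal v hv.le, Real.coe_toNNReal _ hw.le,
      smul_eq_mul, mul_assoc, a2, a1]
    ring
  rw [integral_gaussianReal_eq_integral_smul h0]
  simp only [key]
  rw [integral_const_mul, integral_gaussianPDFReal_eq_one _ h1, mul_one]

theorem zgp_quad {α : Type} [Fintype α] {s q : α → ℝ} (hs : ∀ a, 0 ≤ s a) (hq : ∀ a, 0 ≤ q a)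
    (x : α → ℝ) : ∫ y, Real.exp (-(∑ a, q a * (x a + y a) ^ 2) / 2) ∂zgp s =
      (∏ a, (1 + q a * s a) ^ (-(1 / 2) : ℝ)) *
        Real.exp (-(∑ a, q a / (1 + q a * s a) * x a ^ 2) / 2) := by
  have e : (fun y : α → ℝ => Real.exp (-(∑ a, q a * (x a + y a) ^ 2) / 2)) =
      fun y : α → ℝ => ∏ a, Real.exp (-(q a * (x a + y a) ^ 2) / 2) := by
    funext y
    rw [← Real.exp_sum, ← Finset.sum_div, Finset.sum_neg_distrib]
  rw [e, zgp, integral_fintype_prod_eq_prod
    (fun a (y : ℝ) => Real.exp (-(q a * (x a + y) ^ 2) / 2))]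
  rw [Finset.prod_congr rfl fun a _ => zlw_quad1 (hs a)
    (by have := mul_nonneg (hq a) (hs a); linarith) (x a), Finset.prod_mul_distrib,
    ← Real.exp_sum, ← Finset.sum_div, Finset.sum_neg_distrib]

theorem zlw_form {α : Type} [Fintype α] {s : α → ℝ} (hs : ∀ a, 0 ≤ s a) (c : α → ℝ) :
    (zgp s).map (fun y => ∑ a, c a * y a) = gaussianReal 0 (∑ a, c a ^ 2 * s a).toNNReal := by
  have hm : Measurable fun y : α → ℝ => ∑ a, c a * y a := by fun_prop
  have h0 : 0 ≤ ∑ a, c a ^ 2 * s a :=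
    Finset.sum_nonneg fun a _ => mul_nonneg (sq_nonneg _) (hs a)
  refine Measure.ext_of_charFun (funext fun t => ?_)
  rw [charFun_gaussianReal, charFun_apply_real, integral_map hm.aemeasurable (by fun_prop),
    Real.coe_toNNReal _ h0]
  have h := zgp_char hs fun a => t * c a
  have e : ∀ y : α → ℝ, (t : ℂ) * (∑ a, c a * y a : ℝ) * Complex.I =
      Complex.I * (∑ a, t * c a * y a : ℝ) := fun y => by
    have : ∑ a, t * c a * y a = t * ∑ a, c a * y a := by
      rw [Finset.mul_sum]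
      exact Finset.sum_congr rfl fun a _ => mul_assoc _ _ _
    rw [this, Complex.ofReal_mul, mul_comm]
  have e2 : ∑ a, (t * c a) ^ 2 * s a = (∑ a, c a ^ 2 * s a) * t ^ 2 := by
    rw [Finset.sum_mul]
    exact Finset.sum_congr rfl fun a _ => by ring
  simp only [e]
  rw [h, e2]
  congr 1
  rw [Complex.ofReal_mul, Complex.ofReal_pow, Complex.ofReal_zero]
  ring

theorem zgp_sq {α : Type} [Fintype α] {s : α → ℝ} (hs : ∀ a, 0 ≤ s a) (c : α → ℝ) {t : ℝ}
    (ht : 0 ≤ t) (h : t * (8 * ∑ a, c a ^ 2 * s a) ≤ 1) :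
    Integrable (fun y => Real.exp (t * (∑ a, c a * y a) ^ 2)) (zgp s) ∧
      ∫ y, Real.exp (t * (∑ a, c a * y a) ^ 2) ∂zgp s ≤ 5 / 4 := by
  have hm : Measurable fun y : α → ℝ => ∑ a, c a * y a := by fun_prop
  have h0 : 0 ≤ ∑ a, c a ^ 2 * s a :=
    Finset.sum_nonneg fun a _ => mul_nonneg (sq_nonneg _) (hs a)
  have hA : 3 / 4 ≤ 1 + (-2 * t) * ∑ a, c a ^ 2 * s a := by linarith
  have hA0 : 0 < 1 + (-2 * t) * ∑ a, c a ^ 2 * s a := by linarith
  have k := zlw_quad1 h0 hA0 0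
  rw [← zlw_form hs c, integral_map hm.aemeasurable (by fun_prop)] at k
  have e : ∀ y : ℝ, -(-2 * t * (0 + y) ^ 2) / 2 = t * y ^ 2 := fun y => by ring
  simp only [e] at k
  have e0 : ∀ r : ℝ, Real.exp (-(r * 0 ^ 2) / 2) = 1 := fun r => by simp
  rw [e0, mul_one] at k
  refine ⟨Integrable.of_integral_ne_zero (k ▸ (Real.rpow_pos_of_pos hA0 _).ne'), ?_⟩
  rw [k, Real.rpow_neg hA0.le, ← Real.sqrt_eq_rpow]
  have : 4 / 5 ≤ √(1 + (-2 * t) * ∑ a, c a ^ 2 * s a) := Real.le_sqrt_of_sq_le (by linarith)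
  calc _ ≤ (4 / 5 : ℝ)⁻¹ := inv_anti₀ (by norm_num) this
    _ = 5 / 4 := by norm_num

end Pool.Agent.Lib.MP_9cc147_pr.Cx
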