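import Pool.Agent.Lib.MP_9cc147_pr.Cx.Z.Sin

/-! Bounds on the symbols and on the sums over modes. -/

open scoped Classical Topology
open Finset MeasureTheory ProbabilityTheory Filter

noncomputable section
namespace Pool.Agent.Lib.MP_9cc147_pr.Cx

theorem zy_T (k : ℕ) (x : ℝ) : 1 - ztc k x ^ 2 = 4 ^ k * x * (1 - x / 16) * zpn k x ^ 2 / 4 := by
  induction k with
  | zero => simp only [ztc, zpn]; ring
  | succ k ih => simp only [ztc, zpn]; linear_combination 4 * ztc k x ^ 2 * ih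

theorem zy_T1 (k : ℕ) {x : ℝ} (h0 : 0 < x) (h8 : x ≤ 8) : ztc k x ^ 2 ≤ 1 := by
  have h : 0 ≤ 1 - x / 16 := by linarith
  have : 0 ≤ 4 ^ k * x * (1 - x / 16) * zpn k x ^ 2 / 4 := by positivity
  linarith [zy_T k x]

theorem zy_P1 (k : ℕ) {x : ℝ} (h0 : 0 < x) (h8 : x ≤ 8) : zpn k x ^ 2 ≤ 1 := by
  induction k with
  | zero => simp [zpn]
  | succ k ih =>
    rw [zpn, mul_pow]
    exact mul_le_one₀ ih (sq_nonneg _) (zy_T1 k h0 h8)

theorem zy_u (k : ℕ) {x : ℝ} (h0 : 0 < x) (h8 : x ≤ 8) : 4 ^ k * x * zpn k x ^ 2 ≤ 8 := by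
  have h : 0 ≤ 4 ^ k * x * zpn k x ^ 2 := by positivity
  have := mul_nonneg h (show 0 ≤ 1 / 2 - x / 16 by linarith)
  nlinarith [zy_T k x, sq_nonneg (ztc k x)]

theorem zy_1d {s : ℝ} (hs : 0 < s) (N : ℕ) :
    ∑ a ∈ Ioo (0 : ℤ) (N + 1 : ℕ), 1 / (1 + ((a : ℝ) / s) ^ 2) ≤ 2 * s * (N / (N + s)) := by
  induction N with
  | zero =>
    rw [show Ioo (0 : ℤ) (0 + 1 : ℕ) = ∅ from rfl]
    simp
  | succ N ih =>
    have e : Ioo (0 : ℤ) (N + 1 + 1 : ℕ) = insert ((N : ℤ) + 1) (Ioo (0 : ℤ) (N + 1 : ℕ)) := by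
      ext a
      simp only [mem_Ioo, mem_insert]
      omega
    rw [e, sum_insert (by simp)]
    have hN : (0 : ℝ) ≤ N := N.cast_nonneg
    have k : 1 / (1 + (((N : ℝ) + 1) / s) ^ 2) ≤
        2 * s * ((N + 1) / (N + 1 + s)) - 2 * s * (N / (N + s)) := by
      rw [show 2 * s * ((N + 1) / (N + 1 + s)) - 2 * s * (N / (N + s)) =
        2 * s ^ 2 / ((N + 1 + s) * (N + s)) by field_simp; ring,
        show 1 / (1 + (((N : ℝ) + 1) / s) ^ 2) = s ^ 2 / (s ^ 2 + (N + 1) ^ 2) by field_simp,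
        div_le_div_iff₀ (by positivity) (by positivity)]
      have := mul_nonneg (sq_nonneg s) (show 0 ≤ (N + 1 - s) ^ 2 + (N + 1 + s) by positivity)
      nlinarith
    push_cast at ih ⊢
    linarith

theorem zy_1e (n k : ℕ) (hn : 1 ≤ n) :
    ∑ a ∈ Ioo (0 : ℤ) n, 1 / (1 + 4 ^ k * zl1 n a) ≤ n / 2 ^ k := by
  obtain ⟨N, rfl⟩ : ∃ N, n = N + 1 := ⟨n - 1, by omega⟩
  have hn : (0 : ℝ) < (N + 1 : ℕ) := by positivity
  have hs : (0 : ℝ) < (N + 1 : ℕ) / (2 * 2 ^ k) := by positivity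
  refine (sum_le_sum fun a ha => ?_).trans ((zy_1d hs N).trans ?_)
  · obtain ⟨h0, h1⟩ := mem_Ioo.1 ha
    refine one_div_le_one_div_of_le (by positivity) (add_le_add le_rfl ?_)
    refine le_trans (le_of_eq ?_) (mul_le_mul_of_nonneg_left (zl1_ge h0.le h1.le) (by positivity))
    rw [show (4 : ℝ) ^ k = (2 ^ k) ^ 2 by rw [← pow_mul, mul_comm, pow_mul]; norm_num]
    field_simp
    norm_num
  · refine (mul_le_of_le_one_right (by positivity) ?_).trans (le_of_eq (by field_simp))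
    rw [div_le_one (by positivity)]
    linarith

theorem zy_sum (n k : ℕ) :
    (2 / n : ℝ) ^ 2 * ∑ a ∈ inn n, 4 ^ k * zpn k (zlm n a) ^ 4 ≤ 324 := by
  rcases n.eq_zero_or_pos with rfl | hn
  · simp
  have l0 : ∀ a, 0 ≤ zl1 n a := fun a => by unfold zl1; positivity
  have h1 : ∑ a ∈ inn n, 4 ^ k * zpn k (zlm n a) ^ 4 ≤
      4 ^ k * 81 * (∑ a ∈ Ioo (0 : ℤ) n, 1 / (1 + 4 ^ k * zl1 n a)) ^ 2 := by
    rw [sq, sum_mul_sum, ← sum_product', mul_sum]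
    refine sum_le_sum fun a ha => ?_
    obtain ⟨h0, h8⟩ := zlm_bd ha
    have p1 := mul_nonneg (show (0 : ℝ) ≤ 4 ^ k by positivity) (l0 a.1)
    have p2 := mul_nonneg (show (0 : ℝ) ≤ 4 ^ k by positivity) (l0 a.2)
    have k1 : zpn k (zlm n a) ^ 2 * (1 + 4 ^ k * zl1 n a.1 + 4 ^ k * zl1 n a.2) ≤ 9 := by
      have := zy_u k h0 h8
      have := zy_P1 k h0 h8
      rw [zlm] at *
      linarith
    have q0 := sq_nonneg (zpn k (zlm n a))
    rw [mul_assoc, div_mul_div_comm, mul_one, mul_one_div]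
    refine mul_le_mul_of_nonneg_left ((le_div_iff₀ (by positivity)).2 ?_) (by positivity)
    calc _ = (zpn k (zlm n a) ^ 2 * (1 + 4 ^ k * zl1 n a.1)) *
          (zpn k (zlm n a) ^ 2 * (1 + 4 ^ k * zl1 n a.2)) := by ring
      _ ≤ 9 * 9 := mul_le_mul (by nlinarith [mul_nonneg q0 p2]) (by nlinarith [mul_nonneg q0 p1])
          (by positivity) (by norm_num)
      _ = 81 := by norm_num
  have h2 : (∑ a ∈ Ioo (0 : ℤ) n, 1 / (1 + 4 ^ k * zl1 n a)) ^ 2 ≤ ((n : ℝ) / 2 ^ k) ^ 2 :=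
    pow_le_pow_left₀ (sum_nonneg fun a _ => by have := l0 a; positivity) (zy_1e n k hn) 2
  refine (mul_le_mul_of_nonneg_left (h1.trans (mul_le_mul_of_nonneg_left h2 (by positivity)))
    (sq_nonneg _)).trans (le_of_eq ?_)
  rw [show (4 : ℝ) ^ k = (2 ^ k) ^ 2 by rw [← pow_mul, mul_comm, pow_mul]; norm_num]
  field_simp
  norm_num

theorem zy_fin (n k e : ℕ) {f : P → ℝ}
    (h : ∀ a ∈ inn n, (4 ^ k) ^ e * f a ≤ 16 * (4 ^ k * zpn k (zlm n a) ^ 4)) :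
    (2 / n : ℝ) ^ 2 * ∑ a ∈ inn n, f a ≤ 9 ^ 4 / (4 ^ k) ^ e := by
  rw [le_div_iff₀ (by positivity), mul_assoc, mul_comm _ ((4 ^ k) ^ e : ℝ), mul_sum]
  refine (mul_le_mul_of_nonneg_left (sum_le_sum h) (sq_nonneg _)).trans ?_
  rw [← mul_sum]
  linarith [zy_sum n k]

theorem zy_lev {L : ℕ} (j : ℕ) : L ^ (j + 1) ≤ 200 * L * 2 ^ lev L j := by
  cases j with
  | zero => simp only [lev, zero_add, pow_one, pow_zero]; omega
  | succ j =>
    have h := Nat.lt_pow_succ_log_self (b := 2) (by norm_num) (L ^ (j + 1) / 100)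
    have : L ^ (j + 1) ≤ 200 * 2 ^ lev L (j + 1) := by
      rw [lev]
      rw [Nat.succ_eq_add_one, pow_succ 2] at h
      omega
    calc L ^ (j + 1 + 1) = L ^ (j + 1) * L := pow_succ _ _
      _ ≤ 200 * 2 ^ lev L (j + 1) * L := Nat.mul_le_mul_right _ this
      _ = _ := by ring

theorem zy_cnt {L : ℕ} (hL : 100 ≤ L) (j : ℕ) : lev L (j + 1) - lev L j ≤ 200 * L := by
  have h1 : 100 ≤ L ^ (j + 1) := hL.trans (Nat.le_self_pow (by omega) L)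
  have h2 : 2 ^ lev L (j + 1) ≤ L ^ (j + 1) / 100 := Nat.pow_log_le_self 2 (by omega)
  have h3 : 2 ^ lev L (j + 1) ≤ 2 ^ (200 * L + lev L j) := by
    rw [pow_add]
    exact h2.trans ((Nat.div_le_self _ _).trans ((zy_lev j).trans
      (Nat.mul_le_mul_right _ Nat.lt_two_pow_self.le)))
  have := (Nat.pow_le_pow_iff_right (by norm_num)).1 h3
  omega

theorem zy_sc {L : ℕ} (hL : 100 ≤ L) {j k e : ℕ} (he : e ≤ 2) (hk : lev L j ≤ k) :
    (((L ^ (j + 1) : ℕ) : ℝ) ^ 2) ^ e * (9 ^ 4 / (4 ^ k) ^ e) ≤ ((200 * L) ^ 2) ^ 2 * 9 ^ 4 := by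
  have hL' : (100 : ℝ) ≤ L := by exact_mod_cast hL
  have h1 : ((L ^ (j + 1) : ℕ) : ℝ) ≤ 200 * L * 2 ^ k := by
    exact_mod_cast (zy_lev j).trans (Nat.mul_le_mul_left _ (Nat.pow_le_pow_right (by norm_num) hk))
  have h2 : ((L ^ (j + 1) : ℕ) : ℝ) ^ 2 / 4 ^ k ≤ (200 * L) ^ 2 := by
    rw [div_le_iff₀ (by positivity), show (4 : ℝ) ^ k = (2 ^ k) ^ 2 by
      rw [← pow_mul, mul_comm, pow_mul]; norm_num, ← mul_pow]
    exact pow_le_pow_left₀ (by positivity) h1 2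
  rw [mul_div_left_comm, ← div_pow, mul_comm]
  refine mul_le_mul_of_nonneg_right ((pow_le_pow_left₀ (by positivity) h2 e).trans
    (pow_le_pow_right₀ (one_le_pow₀ (by linarith)) he)) (by norm_num)

theorem zrs_step (k : ℕ) {x : ℝ} (hx : x ≠ 0) :
    zrs k x = zrs (k + 1) x + ∑ i ∈ range 5, zsq k i x ^ 2 := by
  have h := zy_T k x
  simp only [zrs, zpn, zsq, sum_range_succ, sum_range_zero]
  rw [show (4 : ℝ) ^ k = (2 ^ k) ^ 2 by rw [← pow_mul, mul_comm, pow_mul]; norm_num] at h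
  have e : 1 / x - 1 / 16 = (1 - x / 16) * x⁻¹ := by field_simp
  have e' := mul_inv_cancel₀ hx
  rw [e]
  generalize x⁻¹ = y at e'
  generalize ztc k x = T at h ⊢
  generalize zpn k x = p at h ⊢
  generalize (2 : ℝ) ^ k = c at h ⊢
  linear_combination (p ^ 10 * (1 - x / 16) * y * (1 + T ^ 2 + T ^ 4 + T ^ 6 + T ^ 8)) * h +
    (p ^ 12 * (1 - x / 16) ^ 2 * c ^ 2 / 4 * (1 + T ^ 2 + T ^ 4 + T ^ 6 + T ^ 8)) * e'

theorem zlev_mono (L j : ℕ) : lev L j ≤ lev L (j + 1) := by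
  cases j with
  | zero => exact Nat.zero_le _
  | succ j =>
    refine Nat.log_mono_right (Nat.div_le_div_right ?_)
    rcases L.eq_zero_or_pos with rfl | h
    · simp
    · exact Nat.pow_le_pow_right h (by omega)

theorem zrs_lev (L j : ℕ) {x : ℝ} (hx : x ≠ 0) :
    zrs (lev L j) x = zrs (lev L (j + 1)) x + zzs L j x := by
  have key : ∀ a b, a ≤ b →
      zrs a x = zrs b x + ∑ k ∈ Ico a b, ∑ i ∈ range 5, zsq k i x ^ 2 := fun a b h => by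
    induction b, h using Nat.le_induction with
    | base => simp
    | succ b h ih =>
      rw [sum_Ico_succ_top h, ih, zrs_step b hx]
      ring
  exact key _ _ (zlev_mono L j)

theorem zrs_bd (k : ℕ) {x : ℝ} (h0 : 0 < x) (h8 : x ≤ 8) :
    0 ≤ zrs k x ∧ zrs k x ≤ 1 / x - 1 / 16 := by
  have h : 0 ≤ 1 / x - 1 / 16 := sub_nonneg.2 (one_div_le_one_div_of_le h0 (by linarith))
  have e : zpn k x ^ 10 = (zpn k x ^ 2) ^ 5 := by ring
  rw [zrs, e]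
  exact ⟨by positivity, mul_le_of_le_one_left h (pow_le_one₀ (sq_nonneg _) (zy_P1 k h0 h8))⟩

theorem zsum_sq (n k i : ℕ) {e : ℕ} (he : e ≤ 2) :
    (2 / n : ℝ) ^ 2 * ∑ a ∈ inn n, zlm n a ^ e * zsq k i (zlm n a) ^ 2 ≤ 9 ^ 4 / (4 ^ k) ^ e := by
  refine zy_fin n k e fun a ha => ?_
  obtain ⟨h0, h8⟩ := zlm_bd ha
  have p1 := zy_P1 k h0 h8
  have u1 := zy_u k h0 h8
  have t1 : (ztc k (zlm n a) ^ 2) ^ i ≤ 1 := pow_le_one₀ (sq_nonneg _) (zy_T1 k h0 h8)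
  rw [zsq]
  generalize zlm n a = x at *
  generalize zpn k x = p at *
  have w1 : (1 - x / 16) ^ 2 ≤ 1 := by nlinarith
  have k1 : (4 ^ k * x * p ^ 2) ^ e ≤ 8 ^ 2 :=
    (pow_le_pow_left₀ (by positivity) u1 e).trans (pow_le_pow_right₀ (by norm_num) he)
  have k2 : (p ^ 2) ^ (4 - e) ≤ 1 := pow_le_one₀ (sq_nonneg _) p1
  have k3 : (p ^ 2) ^ e * (p ^ 2) ^ (4 - e) = p ^ 8 := by
    rw [← pow_add, show e + (4 - e) = 4 by omega]
    ring
  calc _ = (4 ^ k * x) ^ e * p ^ 8 * ((1 - x / 16) ^ 2 * (ztc k x ^ 2) ^ i) *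
          (4 ^ k * p ^ 4 / 4) := by
        rw [show (4 : ℝ) ^ k = (2 ^ k) ^ 2 by rw [← pow_mul, mul_comm, pow_mul]; norm_num]
        ring
    _ ≤ 8 ^ 2 * 1 * (1 * 1) * (4 ^ k * p ^ 4 / 4) := by
        rw [← k3, ← mul_assoc _ ((p ^ 2) ^ e), ← mul_pow]
        gcongr
    _ = _ := by ring

theorem zsum_rs (n k : ℕ) {e : ℕ} (h1 : 1 ≤ e) (he : e ≤ 2) :
    (2 / n : ℝ) ^ 2 * ∑ a ∈ inn n, zlm n a ^ e * zrs k (zlm n a) ≤ 9 ^ 4 / (4 ^ k) ^ e := by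
  refine zy_fin n k e fun a ha => ?_
  obtain ⟨h0, h8⟩ := zlm_bd ha
  have p1 := zy_P1 k h0 h8
  have u1 := zy_u k h0 h8
  obtain ⟨e, rfl⟩ : ∃ d, e = d + 1 := ⟨e - 1, by omega⟩
  rw [zrs]
  generalize zlm n a = x at *
  generalize zpn k x = p at *
  have w1 : x * (1 / x - 1 / 16) ≤ 1 := by
    rw [mul_sub, mul_one_div_cancel h0.ne']
    linarith
  have w0 : 0 ≤ x * (1 / x - 1 / 16) := by
    rw [mul_sub, mul_one_div_cancel h0.ne']
    linarith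
  have k1 : (4 ^ k * x * p ^ 2) ^ e ≤ 8 ^ 1 :=
    (pow_le_pow_left₀ (by positivity) u1 e).trans (pow_le_pow_right₀ (by norm_num) (by omega))
  have k2 : (p ^ 2) ^ (3 - e) ≤ 1 := pow_le_one₀ (sq_nonneg _) p1
  have k3 : (p ^ 2) ^ e * (p ^ 2) ^ (3 - e) = p ^ 6 := by
    rw [← pow_add, show e + (3 - e) = 3 by omega]
    ring
  calc _ = (4 ^ k * x) ^ e * p ^ 6 * (x * (1 / x - 1 / 16)) * (4 ^ k * p ^ 4) := by ring
    _ ≤ 8 ^ 1 * 1 * 1 * (4 ^ k * p ^ 4) := by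
        rw [← k3, ← mul_assoc _ ((p ^ 2) ^ e), ← mul_pow]
        gcongr
    _ ≤ 16 * (4 ^ k * p ^ 4) := by
        have : (0 : ℝ) ≤ 4 ^ k * p ^ 4 := by positivity
        linarith

theorem zsum_lev {L : ℕ} (hL : 100 ≤ L) : ∃ C : ℝ, 0 < C ∧ ∀ n j e : ℕ, e ≤ 2 →
    (((L ^ (j + 1) : ℕ) : ℝ) ^ 2) ^ e *
      ((2 / n : ℝ) ^ 2 * ∑ a ∈ inn n, zlm n a ^ e * zzs L j (zlm n a)) ≤ C ∧
    (1 ≤ e → (((L ^ (j + 1) : ℕ) : ℝ) ^ 2) ^ e *
      ((2 / n : ℝ) ^ 2 * ∑ a ∈ inn n, zlm n a ^ e * zrs (lev L j) (zlm n a)) ≤ C) := by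
  have hL' : (100 : ℝ) ≤ L := by exact_mod_cast hL
  refine ⟨200 * L * (5 * (((200 * L) ^ 2) ^ 2 * 9 ^ 4)), by positivity,
    fun n j e he => ⟨?_, fun h1 => ?_⟩⟩
  · simp only [zzs, mul_sum]
    rw [sum_comm]
    refine (sum_le_card_nsmul _ _ (5 * (((200 * (L : ℝ)) ^ 2) ^ 2 * 9 ^ 4)) fun k hk => ?_).trans ?_
    · rw [sum_comm]
      refine (sum_le_card_nsmul _ _ _ fun i _ => ?_).trans
        (le_of_eq (by rw [card_range, nsmul_eq_mul]; rfl))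
      rw [← mul_sum, ← mul_sum]
      exact (mul_le_mul_of_nonneg_left (zsum_sq n k i he) (by positivity)).trans
        (zy_sc hL he (mem_Ico.1 hk).1)
    · rw [Nat.card_Ico, nsmul_eq_mul]
      exact mul_le_mul_of_nonneg_right (by exact_mod_cast zy_cnt hL j) (by positivity)
  · refine ((mul_le_mul_of_nonneg_left (zsum_rs n _ h1 he) (by positivity)).trans
      (zy_sc hL he le_rfl)).trans ?_
    have : (0 : ℝ) ≤ ((200 * L) ^ 2) ^ 2 * 9 ^ 4 := by positivity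
    nlinarith

end Pool.Agent.Lib.MP_9cc147_pr.Cx
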