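import Pool.Agent.Lib.MP_9cc147_pr.Cx.Z.Ene
import Pool.Agent.Lib.MP_9cc147_pr.Cx.Z.Law
import Pool.Agent.Lib.MP_9cc147_pr.Cx.Z.Sym

/-! The modes of the three fields. -/

open scoped Classical Topology
open Finset MeasureTheory ProbabilityTheory Filter

noncomputable section
namespace Pool.Agent.Lib.MP_9cc147_pr.Cx

theorem zm_ext (n : ℕ) (g : P → ℝ) (a : P) :
    zhat n (ext n g) a = ∑ q ∈ inn n, zsn n a q * g q :=
  sum_congr rfl fun _ hq => by rw [zext_inn g hq]

theorem zm_sum {ι : Type} (n : ℕ) (J : Finset ι) (f : ι → P → ℝ) (a : P) :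
    zhat n (∑ i ∈ J, f i) a = ∑ i ∈ J, zhat n (f i) a := by
  simp only [zhat, Finset.sum_apply, mul_sum]
  exact sum_comm

theorem zm_add (n : ℕ) (f g : P → ℝ) (a : P) : zhat n (f + g) a = zhat n f a + zhat n g a := by
  simp only [zhat, Pi.add_apply, mul_add, sum_add_distrib]

theorem zm_mext (n : ℕ) {g : Om → P → ℝ} (hg : ∀ p, Measurable fun ω => g ω p) :
    Measurable fun ω => ext n (g ω) :=
  measurable_pi_lambda _ fun _ => (hg _).const_mul _

theorem ZMode.mhat {μ : Measure Om} {n : ℕ} {ζ : Om → P → ℝ} {s : P → ℝ} (h : ZMode μ n ζ s) :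
    Measurable fun ω (a : inn n) => zhat n (ζ ω) a :=
  measurable_pi_lambda _ fun _ => Finset.measurable_fun_sum _ fun p _ =>
    ((measurable_pi_apply p).comp h.mea).const_mul _

theorem zm_orth {n : ℕ} (a b : inn n) (c : P → ℝ) :
    ∑ q ∈ inn n, c a * zsn n a q * (c b * zsn n b q) = if a = b then c a ^ 2 else 0 := by
  have : ∀ q, c a * zsn n a q * (c b * zsn n b q) = c a * c b * (zsn n a q * zsn n b q) :=
    fun q => by ring
  simp only [this, ← mul_sum, zsn_orth a.2 b.2, Subtype.ext_iff]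
  split_ifs with e
  · rw [← e]; ring
  · ring

theorem zmode_zeta (L j : ℕ) {n : ℕ} (hn : 1 ≤ n) :
    ZMode PP n (zeta L n j) fun a => zzs L j (zlm n a) := by
  refine ⟨fun ω => zdir_sum fun k _ => zdir_sum fun i hi =>
    (zop_sq k (mem_range.1 hi)).dir (zext_dir hn _), ?_,
    fun a _ => sum_nonneg fun k _ => sum_nonneg fun i _ => sq_nonneg _, ?_⟩
  · exact Finset.measurable_fun_sum _ fun k _ => Finset.measurable_fun_sum _ fun i hi =>
      (zop_sq k (mem_range.1 hi)).mea.comp (zm_mext n fun p => measurable_pi_apply _)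
  · rw [← zlaw_lin (α := inn n) (fun _ => gaussianReal 0 1)
      ((Ico (lev L j) (lev L (j + 1)) ×ˢ range 5) ×ˢ inn n) (fun t => (5 * t.1.1 + t.1.2, t.2)) ?_
      (fun _ _ => rfl) (fun a t => zsq t.1.1 t.1.2 (zlm n a) * zsn n a t.2) _ fun a b => ?_]
    · congr 1
      ext ω a
      simp only [zeta, zm_sum, sum_product]
      refine sum_congr rfl fun k _ => sum_congr rfl fun i _ => ?_
      rw [zhat_op hn (fun a _ => zsq_eig (zsn_lap n a) k i) (zext_dir hn _) a.2, zm_ext, mul_sum]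
      exact sum_congr rfl fun q _ => by ring
    · rintro ⟨⟨k, i⟩, q⟩ h1 ⟨⟨k', i'⟩, q'⟩ h2 e
      simp only [coe_product, Set.mem_prod, mem_coe, mem_range, Prod.mk.injEq] at h1 h2 e ⊢
      exact ⟨by omega, e.2⟩
    · rw [sum_product, sum_congr rfl fun t _ => zm_orth a b fun a => zsq t.1 t.2 (zlm n a)]
      split_ifs
      · rw [sum_product]; rfl
      · simp

theorem zmode_zr (k : ℕ) {n : ℕ} (hn : 1 ≤ n) :
    ZMode PP n (zr n k) fun a => zrs k (zlm n a) := by
  refine ⟨fun ω => (zop_pn5 k).dir (zext_dir hn _), (zop_pn5 k).mea.comp (zm_mext n fun p =>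
    Finset.measurable_fun_sum _ fun q _ => (measurable_pi_apply _).const_mul _),
    fun a ha => (zrs_bd k (zlm_bd ha).1 (zlm_bd ha).2).1, ?_⟩
  rw [← zlaw_lin (α := inn n) (fun _ => gaussianReal 0 1) (inn n) (fun q => ((0 : ℕ), q))
    (fun _ _ _ _ e => congrArg Prod.snd e) (fun _ _ => rfl)
    (fun a q => zpn k (zlm n a) ^ 5 * zhat n (root n · q) a) _ fun a b => ?_]
  · congr 1
    ext ω a
    rw [zr, zhat_op hn (fun a _ => zpn5_eig (zsn_lap n a) k) (zext_dir hn _) a.2, zm_ext]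
    simp only [zhat, mul_sum, sum_mul]
    rw [sum_comm]
    exact sum_congr rfl fun q _ => sum_congr rfl fun p _ => by ring
  · have : ∀ q, zpn k (zlm n a) ^ 5 * zhat n (root n · q) a *
        (zpn k (zlm n b) ^ 5 * zhat n (root n · q) b) = zpn k (zlm n a) ^ 5 * zpn k (zlm n b) ^ 5 *
          (zhat n (root n · q) a * zhat n (root n · q) b) := fun q => by ring
    simp only [this, ← mul_sum, zroot_orth a.2 b.2, Subtype.ext_iff]
    split_ifs with e
    · rw [← e, zrs]; ring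
    · ring

theorem zmode_zw (m : Measure ℝ) [IsProbabilityMeasure m] {n : ℕ} (hn : 1 ≤ n) :
    ZMode (mu0 m) n (zw n) fun _ => 1 / 16 := by
  have : ∀ i : ℕ × P, IsProbabilityMeasure (if i.1 < 4 then m else gaussianReal 0 1) :=
    fun i => by split_ifs <;> infer_instance
  refine ⟨fun ω => zdir_smul (zext_dir hn _) _,
    (zm_mext n fun p => measurable_pi_apply _).const_smul (1 / 4 : ℝ), fun _ _ => by norm_num, ?_⟩
  rw [← zlaw_lin (α := inn n) (fun i : ℕ × P => if i.1 < 4 then m else gaussianReal 0 1) (inn n)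
    (fun q => ((4 : ℕ), q)) (fun _ _ _ _ e => congrArg Prod.snd e) (fun _ _ => if_neg (lt_irrefl _))
    (fun a q => 1 / 4 * zsn n a q) _ fun a b => ?_]
  · congr 1
    ext ω a
    refine sum_congr rfl fun q hq => ?_
    rw [zw, Pi.smul_apply, zext_inn _ hq, smul_eq_mul]
    ring
  · rw [zm_orth a b fun _ => 1 / 4]
    norm_num

theorem ZMode.char {μ : Measure Om} {n : ℕ} {ζ : Om → P → ℝ} {s : P → ℝ} (h : ZMode μ n ζ s)
    (ψ : P → ℝ) : ∫ ω, Complex.exp (Complex.I * ∑ p ∈ inn n, (ψ p : ℂ) * ζ ω p) ∂μ =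
      Complex.exp (-(∑ a ∈ inn n, zhat n ψ a ^ 2 * s a : ℝ) / 2) := by
  have e := zgp_char (α := inn n) (s := fun a => s a) (fun a => h.pos a a.2) fun a => zhat n ψ a
  rw [← h.law, integral_map h.mhat.aemeasurable (Continuous.aestronglyMeasurable (by fun_prop)),
    sum_coe_sort (inn n) fun a => zhat n ψ a ^ 2 * s a] at e
  rw [← e]
  refine integral_congr_ae (.of_forall fun ω => ?_)
  simp only []
  rw [sum_coe_sort (inn n) fun a => zhat n ψ a * zhat n (ζ ω) a, ← zpars]
  push_cast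
  rfl

theorem ZMode.quad {μ : Measure Om} {n : ℕ} {ζ : Om → P → ℝ} {s q S : P → ℝ} (h : ZMode μ n ζ s)
    (hq : ∀ a ∈ inn n, 0 ≤ q a) (hS : ∀ a ∈ inn n, 0 ≤ S a) (θ : P → ℝ) :
    ∫ ω, zgv n q S (θ + ζ ω) ∂μ = zgv n q (S + s) θ := by
  have p1 : ∀ a ∈ inn n, 0 < 1 + q a * S a := fun a ha => by
    have := mul_nonneg (hq a ha) (hS a ha); linarith
  have p2 : ∀ a ∈ inn n, 0 < 1 + q a / (1 + q a * S a) * s a := fun a ha => by
    have := mul_nonneg (div_nonneg (hq a ha) (p1 a ha).le) (h.pos a ha); linarith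
  have p3 : ∀ a ∈ inn n, 1 + q a * (S + s) a =
      (1 + q a * S a) * (1 + q a / (1 + q a * S a) * s a) := fun a ha => by
    have := (p1 a ha).ne'
    rw [Pi.add_apply]
    field_simp
    ring
  have e := zgp_quad (α := inn n) (s := fun a => s a) (q := fun a => q a / (1 + q a * S a))
    (fun a => h.pos a a.2) (fun a => div_nonneg (hq a a.2) (p1 a a.2).le) fun a => zhat n θ a
  rw [← h.law, integral_map h.mhat.aemeasurable (Continuous.aestronglyMeasurable (by fun_prop)),
    sum_coe_sort (inn n) fun a => q a / (1 + q a * S a) / (1 + q a / (1 + q a * S a) * s a) *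
      zhat n θ a ^ 2,
    prod_coe_sort (inn n) fun a => (1 + q a / (1 + q a * S a) * s a) ^ (-(1 / 2) : ℝ)] at e
  simp only [zgv, zm_add]
  rw [integral_const_mul, ← integral_congr_ae (.of_forall fun ω => congrArg
    (fun x => Real.exp (-x / 2)) (sum_coe_sort (inn n) fun a => q a / (1 + q a * S a) * (zhat n θ a + zhat n (ζ ω) a) ^ 2)), e,
    ← mul_assoc, ← prod_mul_distrib]
  congr 1
  · exact prod_congr rfl fun a ha => by rw [p3 a ha, Real.mul_rpow (p1 a ha).le (p2 a ha).le]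
  · rw [sum_congr rfl fun a ha => by rw [div_div, ← p3 a ha]]

theorem ZMode.mb {μ : Measure Om} {n : ℕ} {ζ : Om → P → ℝ} {s : P → ℝ} (h : ZMode μ n ζ s)
    (hn : 1 ≤ n) (D : (P → ℝ) →ₗ[ℝ] ℝ) {b : ℝ} (hb : ∑ a ∈ inn n, D (zsn n a) ^ 2 * s a ≤ b) :
    ZMB μ (fun ω => D (ζ ω) ^ 2) (8 * b) := by
  have e : ∀ ω, D (ζ ω) = ∑ a : inn n, D (zsn n a) * zhat n (ζ ω) a := fun ω => by
    rw [sum_coe_sort (inn n) fun a => D (zsn n a) * zhat n (ζ ω) a]
    conv_lhs => rw [zexpand hn (h.dir ω), map_sum]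
    exact sum_congr rfl fun a _ => by rw [map_smul, smul_eq_mul, mul_comm]
  simp only [e]
  refine ⟨(Finset.measurable_fun_sum _ fun a _ =>
    ((measurable_pi_apply a).comp h.mhat).const_mul _).pow_const 2, fun t t0 t1 => ?_⟩
  have k := zgp_sq (α := inn n) (s := fun a => s a) (fun a => h.pos a a.2) (fun a => D (zsn n a))
    t0 (by
      rw [sum_coe_sort (inn n) fun a => D (zsn n a) ^ 2 * s a]
      exact (mul_le_mul_of_nonneg_left (by linarith) t0).trans t1)
  have c : Continuous fun y : inn n → ℝ =>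
      Real.exp (t * (∑ a : inn n, D (zsn n a) * y a) ^ 2) := by fun_prop
  rw [← h.law, integral_map h.mhat.aemeasurable c.aestronglyMeasurable,
    integrable_map_measure c.aestronglyMeasurable h.mhat.aemeasurable] at k
  exact k

end Pool.Agent.Lib.MP_9cc147_pr.Cx
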