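import Pool.Agent.Lib.MP_9cc147_pr.Cx.S1

/-! Symbols, sine modes and Gaussian laws for the noise. -/

open scoped Classical Topology
open Finset MeasureTheory ProbabilityTheory Filter

noncomputable section
namespace Pool.Agent.Lib.MP_9cc147_pr.Cx

/-- symbols of `Tc`, `Pn`, `Sq` -/
def ztc : ℕ → ℝ → ℝ
  | 0, x => 1 - x / 8
  | k + 1, x => 2 * ztc k x ^ 2 - 1
def zpn : ℕ → ℝ → ℝ
  | 0, _ => 1
  | k + 1, x => zpn k x * ztc k x
def zsq (k i : ℕ) (x : ℝ) : ℝ := 2 ^ k / 2 * ((1 - x / 16) * zpn k x ^ 6 * ztc k x ^ i)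
/-- variance of a mode of the last field -/
def zrs (k : ℕ) (x : ℝ) : ℝ := zpn k x ^ 10 * (1 / x - 1 / 16)
/-- variance of a mode of the fluctuation field -/
def zzs (L j : ℕ) (x : ℝ) : ℝ :=
  ∑ k ∈ Ico (lev L j) (lev L (j + 1)), ∑ i ∈ range 5, zsq k i x ^ 2

/-- an operator of range `r` that commutes with the symmetries of the lattice -/
structure ZOp (r : ℕ) (A : Module.End ℝ (P → ℝ)) : Prop where
  loc : ∀ f g p, (∀ y, nr r p y → f y = g y) → A f p = A g p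
  sym : ∀ (g : Sy) (c : P) f, A (f ∘ vm g c) = A f ∘ vm g c
  mea : Measurable A

/-- the eigenfunctions and eigenvalues of the Dirichlet Laplacian -/
def zsn (n : ℕ) (a p : P) : ℝ :=
  2 / n * Real.sin (Real.pi * a.1 * p.1 / n) * Real.sin (Real.pi * a.2 * p.2 / n)
def zl1 (n : ℕ) (a : ℤ) : ℝ := 4 * Real.sin (Real.pi * a / (2 * n)) ^ 2
def zlm (n : ℕ) (a : P) : ℝ := zl1 n a.1 + zl1 n a.2
def zhat (n : ℕ) (f : P → ℝ) (a : P) : ℝ := ∑ p ∈ inn n, zsn n a p * f p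

/-- independent centred Gaussians of variances `s` -/
def zgp {α : Type} [Fintype α] (s : α → ℝ) : Measure (α → ℝ) :=
  Measure.pi fun a => gaussianReal 0 (s a).toNNReal

/-- a random odd periodic field whose modes are independent Gaussians of variances `s` -/
structure ZMode (μ : Measure Om) (n : ℕ) (ζ : Om → P → ℝ) (s : P → ℝ) : Prop where
  dir : ∀ ω, Dir n (ζ ω)
  mea : Measurable ζ
  pos : ∀ a ∈ inn n, 0 ≤ s a
  law : μ.map (fun ω (a : inn n) => zhat n (ζ ω) a) = zgp fun a : inn n => s a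

/-- `f` has budget `b` -/
def ZMB (μ : Measure Om) (f : Om → ℝ) (b : ℝ) : Prop :=
  Measurable f ∧ ∀ t, 0 ≤ t → t * b ≤ 1 → Mom μ (fun ω => t * f ω) (5 / 4)

/-- the Gaussian weight of stiffness `q` after noise of variance `S` -/
def zgv (n : ℕ) (q S : P → ℝ) (θ : P → ℝ) : ℝ :=
  (∏ a ∈ inn n, (1 + q a * S a) ^ (-(1 / 2) : ℝ)) *
    Real.exp (-(∑ a ∈ inn n, q a / (1 + q a * S a) * zhat n θ a ^ 2) / 2)

end Pool.Agent.Lib.MP_9cc147_pr.Cx
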