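import Pool.Agent.Lib.MP_9cc147_pr.Cx.Z.Op

/-! The sine basis. -/

open scoped Classical Topology
open Finset MeasureTheory ProbabilityTheory Filter

noncomputable section
namespace Pool.Agent.Lib.MP_9cc147_pr.Cx

theorem zs_tel (g : ℤ → ℝ) (m : ℕ) :
    ∑ x ∈ Ioo (0 : ℤ) (m + 1), (g x - g (x - 1)) = g m - g 0 := by
  induction m with
  | zero =>
    have e : Ioo (0 : ℤ) ((0 : ℕ) + 1) = ∅ := by
      ext x; simp only [mem_Ioo, notMem_empty, iff_false]; push_cast; omega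
    rw [e]; simp
  | succ m ih =>
    have e : Ioo (0 : ℤ) ((m + 1 : ℕ) + 1) = insert ((m : ℤ) + 1) (Ioo (0 : ℤ) (m + 1)) := by
      ext x; simp only [mem_Ioo, mem_insert]; push_cast; omega
    rw [e, sum_insert (by simp), ih]
    push_cast
    rw [add_sub_cancel_right]; ring

theorem zs_cos {n : ℕ} {k : ℤ} (h0 : k ≠ 0) (h1 : |k| < 2 * n) :
    ∑ x ∈ Ioo (0 : ℤ) n, Real.cos (Real.pi * k * x / n) = -(Real.cos (Real.pi * k) + 1) / 2 := by
  have hn : 0 < n := by have := abs_nonneg k; omega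
  obtain ⟨m, rfl⟩ : ∃ m, n = m + 1 := ⟨n - 1, by omega⟩
  have hN : (0 : ℝ) < (m + 1 : ℕ) := by positivity
  set N : ℝ := ((m + 1 : ℕ) : ℝ) with hNd
  set u : ℝ := Real.pi * k / (2 * N) with hu
  have hk : |(k : ℝ)| < 2 * N := by rw [hNd]; exact_mod_cast h1
  have hs : Real.sin u ≠ 0 := by
    have hk0 : (k : ℝ) ≠ 0 := by exact_mod_cast h0
    have hu0 : u ≠ 0 := by rw [hu]; positivity
    have hb : |u| < Real.pi := by
      rw [hu, abs_div, abs_mul, abs_of_pos Real.pi_pos, abs_of_pos (by positivity : 0 < 2 * N),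
        div_lt_iff₀ (by positivity)]
      exact mul_lt_mul_of_pos_left hk Real.pi_pos
    rw [Ne, Real.sin_eq_zero_iff_of_lt_of_lt (abs_lt.1 hb).1 (abs_lt.1 hb).2]
    exact hu0
  have t := zs_tel (fun x => Real.sin ((2 * x + 1) * u)) m
  have e1 : ∀ x : ℤ, Real.sin ((2 * x + 1) * u) - Real.sin ((2 * ((x - 1 : ℤ) : ℝ) + 1) * u) =
      2 * Real.sin u * Real.cos (Real.pi * k * x / N) := by
    intro x
    have a1 : Real.pi * k * x / N = 2 * x * u := by rw [hu]; field_simp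
    push_cast
    rw [a1, show (2 * (x : ℝ) + 1) * u = 2 * x * u + u by ring,
      show (2 * ((x : ℝ) - 1) + 1) * u = 2 * x * u - u by ring, Real.sin_add, Real.sin_sub]
    ring
  have e2 : (2 * ((m : ℤ) : ℝ) + 1) * u = k * Real.pi - u := by
    rw [hu, hNd]; push_cast; field_simp; ring
  simp only [e1, e2] at t
  rw [← mul_sum, Real.sin_sub, Real.sin_int_mul_pi] at t
  apply mul_left_cancel₀ (mul_ne_zero two_ne_zero hs)
  push_cast at t ⊢
  rw [t, mul_comm Real.pi]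
  simp only [mul_zero, zero_add, one_mul]
  ring

theorem zs_orth1 {n : ℕ} {a b : ℤ} (ha : a ∈ Ioo (0 : ℤ) n) (hb : b ∈ Ioo (0 : ℤ) n) :
    ∑ x ∈ Ioo (0 : ℤ) n, Real.sin (Real.pi * a * x / n) * Real.sin (Real.pi * b * x / n) =
      if a = b then (n : ℝ) / 2 else 0 := by
  rw [mem_Ioo] at ha hb
  have e : ∀ x : ℤ, Real.sin (Real.pi * a * x / n) * Real.sin (Real.pi * b * x / n) =
      (Real.cos (Real.pi * (a - b : ℤ) * x / n) - Real.cos (Real.pi * (a + b : ℤ) * x / n)) / 2 := by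
    intro x
    push_cast
    rw [show Real.pi * ((a : ℝ) - b) * x / n = Real.pi * a * x / n - Real.pi * b * x / n by ring,
      show Real.pi * ((a : ℝ) + b) * x / n = Real.pi * a * x / n + Real.pi * b * x / n by ring,
      Real.cos_sub, Real.cos_add]
    ring
  simp only [e]
  rw [← sum_div, sum_sub_distrib, zs_cos (k := a + b) (by omega) (by rw [abs_lt]; omega)]
  split_ifs with h
  · subst h
    have c : ((#(Ioo (0 : ℤ) n) : ℕ) : ℝ) = n - 1 := by
      have : ((#(Ioo (0 : ℤ) n) : ℕ) : ℤ) = n - 1 := by rw [Int.card_Ioo]; omega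
      exact_mod_cast this
    have c2 : Real.cos (Real.pi * (a + a : ℤ)) = 1 := by
      rw [← Real.cos_int_mul_two_pi a]; congr 1; push_cast; ring
    rw [c2]
    simp only [sub_self, Int.cast_zero, mul_zero, zero_mul, zero_div, Real.cos_zero, sum_const,
      nsmul_eq_mul, mul_one, c]
    ring
  · rw [zs_cos (k := a - b) (by omega) (by rw [abs_lt]; omega)]
    have c2 : Real.cos (Real.pi * (a + b : ℤ)) = Real.cos (Real.pi * (a - b : ℤ)) := by
      rw [← Real.cos_add_int_mul_two_pi (Real.pi * (a - b : ℤ)) b]; congr 1; push_cast; ring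
    rw [c2]; ring

theorem zs_d1 (n : ℕ) (a : ℤ) (t : ℝ) :
    (Real.sin (Real.pi * a * (t + 1) / n) - Real.sin (Real.pi * a * t / n)) ^ 2 ≤ zl1 n a := by
  rw [Real.sin_sub_sin, show (Real.pi * a * (t + 1) / n - Real.pi * a * t / n) / 2 =
    Real.pi * a / (2 * n) by ring, zl1, mul_pow, mul_pow]
  nlinarith [Real.cos_sq_le_one ((Real.pi * a * (t + 1) / n + Real.pi * a * t / n) / 2),
    sq_nonneg (Real.sin (Real.pi * a / (2 * n)))]

theorem zs_d2 (n : ℕ) (a : ℤ) (t : ℝ) :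
    Real.sin (Real.pi * a * (t + 1) / n) - 2 * Real.sin (Real.pi * a * t / n) +
      Real.sin (Real.pi * a * (t - 1) / n) = -zl1 n a * Real.sin (Real.pi * a * t / n) := by
  rw [show Real.pi * a * (t + 1) / n = Real.pi * a * t / n + 2 * (Real.pi * a / (2 * n)) by ring,
    show Real.pi * a * (t - 1) / n = Real.pi * a * t / n - 2 * (Real.pi * a / (2 * n)) by ring,
    Real.sin_add, Real.sin_sub, Real.cos_two_mul, Real.cos_sq', zl1]
  ring

theorem zs_l1 (n : ℕ) (a : ℤ) : 0 ≤ zl1 n a ∧ zl1 n a ≤ 4 := by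
  unfold zl1
  constructor
  · positivity
  · nlinarith [Real.sin_sq_le_one (Real.pi * a / (2 * n))]

theorem zsn_symm (n : ℕ) (a p : P) : zsn n a p = zsn n p a := by
  unfold zsn
  rw [mul_right_comm Real.pi (a.1 : ℝ), mul_right_comm Real.pi (a.2 : ℝ)]

theorem zsn_dir {n : ℕ} (hn : 1 ≤ n) (a : P) : Dir n (zsn n a) := by
  have hN : (n : ℝ) ≠ 0 := by positivity
  have per : ∀ k x : ℤ, Real.sin (Real.pi * k * ((x + 2 * n : ℤ) : ℝ) / n) =
      Real.sin (Real.pi * k * x / n) := by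
    intro k x
    rw [← Real.sin_add_int_mul_two_pi (Real.pi * k * x / n) k]
    congr 1; push_cast; field_simp
  intro p
  refine ⟨?_, ?_, ?_, ?_⟩
  · simp [zsn, neg_div]
  · simp [zsn, neg_div]
  · simp only [zsn, per]
  · simp only [zsn, per]

theorem zsn_lap (n : ℕ) (a : P) : Lap (zsn n a) = zlm n a • zsn n a := by
  funext p
  have h1 := zs_d2 n a.1 p.1
  have h2 := zs_d2 n a.2 p.2
  show 4 * zsn n a p - ∑ d, zsn n a (p + dir d) = zlm n a * zsn n a p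
  simp only [Fin.sum_univ_four, dir, zsn, zlm, Matrix.cons_val_zero, Matrix.cons_val_one,
    Matrix.cons_val, Prod.fst_add, Prod.snd_add, add_zero]
  push_cast
  simp only [← sub_eq_add_neg]
  linear_combination (-(2 / n) * Real.sin (Real.pi * a.2 * p.2 / n)) * h1 +
    (-(2 / n) * Real.sin (Real.pi * a.1 * p.1 / n)) * h2

theorem zsn_orth {n : ℕ} {a b : P} (ha : a ∈ inn n) (hb : b ∈ inn n) :
    ∑ p ∈ inn n, zsn n a p * zsn n b p = if a = b then 1 else 0 := by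
  rw [inn, mem_product] at ha hb
  have hn : (n : ℝ) ≠ 0 := by
    have := mem_Ioo.1 ha.1
    have : 0 < n := by omega
    positivity
  have e : ∑ p ∈ inn n, zsn n a p * zsn n b p = (2 / n) ^ 2 *
      ((∑ x ∈ Ioo (0 : ℤ) n, Real.sin (Real.pi * a.1 * x / n) * Real.sin (Real.pi * b.1 * x / n)) *
      ∑ y ∈ Ioo (0 : ℤ) n, Real.sin (Real.pi * a.2 * y / n) * Real.sin (Real.pi * b.2 * y / n)) := by
    rw [sum_mul_sum, inn, sum_product, mul_sum]
    refine sum_congr rfl fun x _ => ?_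
    rw [mul_sum]
    refine sum_congr rfl fun y _ => ?_
    unfold zsn; ring
  rw [e, zs_orth1 ha.1 hb.1, zs_orth1 ha.2 hb.2]
  by_cases h1 : a.1 = b.1 <;> by_cases h2 : a.2 = b.2 <;> simp [h1, h2, Prod.ext_iff]
  field_simp

theorem zs_rec (n : ℕ) (f : P → ℝ) {p : P} (hp : p ∈ inn n) :
    ∑ a ∈ inn n, zhat n f a * zsn n a p = f p := by
  simp only [zhat, sum_mul]
  rw [sum_comm]
  have e : ∀ y ∈ inn n, ∑ a ∈ inn n, zsn n a y * f y * zsn n a p = if y = p then f y else 0 := by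
    intro y hy
    have := zsn_orth hy hp
    rw [← mul_boole, ← this, mul_sum]
    refine sum_congr rfl fun a _ => ?_
    rw [zsn_symm n a y, zsn_symm n a p]; ring
  rw [sum_congr rfl e, sum_ite_eq', if_pos hp]

theorem zexpand {n : ℕ} (hn : 1 ≤ n) {f : P → ℝ} (hf : Dir n f) :
    f = ∑ a ∈ inn n, zhat n f a • zsn n a := by
  refine zdir_eq hn hf (zdir_sum fun a _ => zdir_smul (zsn_dir hn a) _) fun p hp => ?_
  rw [Finset.sum_apply, ← zs_rec n f hp]
  rfl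

theorem zpars (n : ℕ) (f g : P → ℝ) :
    ∑ p ∈ inn n, f p * g p = ∑ a ∈ inn n, zhat n f a * zhat n g a := by
  have e : ∀ p ∈ inn n, f p * g p = ∑ a ∈ inn n, zhat n f a * (zsn n a p * g p) := by
    intro p hp
    rw [← zs_rec n f hp, sum_mul]
    exact sum_congr rfl fun a _ => mul_assoc _ _ _
  rw [sum_congr rfl e, sum_comm]
  exact sum_congr rfl fun a _ => by rw [← mul_sum]; rfl

theorem zhat_op {n : ℕ} (hn : 1 ≤ n) {A : Module.End ℝ (P → ℝ)} {φ : P → ℝ}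
    (hA : ∀ a ∈ inn n, A (zsn n a) = φ a • zsn n a) {f : P → ℝ} (hf : Dir n f) {a : P}
    (ha : a ∈ inn n) : zhat n (A f) a = φ a * zhat n f a := by
  have e : A f = ∑ b ∈ inn n, (zhat n f b * φ b) • zsn n b := by
    conv_lhs => rw [zexpand hn hf]
    rw [map_sum]
    exact sum_congr rfl fun b hb => by rw [map_smul, hA b hb, smul_smul]
  have e2 : ∀ b ∈ inn n, ∑ p ∈ inn n, zsn n a p * (zhat n f b * φ b * zsn n b p) =
      if a = b then zhat n f b * φ b else 0 := by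
    intro b hb
    rw [← mul_boole, ← zsn_orth ha hb, mul_sum]
    exact sum_congr rfl fun p _ => by ring
  rw [e]
  conv_lhs => unfold zhat
  simp only [Finset.sum_apply, Pi.smul_apply, smul_eq_mul, mul_sum]
  rw [sum_comm]
  refine (sum_congr rfl e2).trans ?_
  rw [sum_ite_eq, if_pos ha, mul_comm]

theorem zl1_ge {n : ℕ} {a : ℤ} (h0 : 0 ≤ a) (h1 : a ≤ n) : 4 * ((a : ℝ) / n) ^ 2 ≤ zl1 n a := by
  rcases Nat.eq_zero_or_pos n with rfl | hn
  · simpa using (zs_l1 0 a).1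
  have hN : (0 : ℝ) < n := by exact_mod_cast hn
  have a0 : (0 : ℝ) ≤ a := by exact_mod_cast h0
  have a1 : (a : ℝ) ≤ n := by exact_mod_cast h1
  have h := Real.mul_le_sin (x := Real.pi * a / (2 * n)) (by positivity) (by
    rw [div_le_div_iff₀ (by positivity) two_pos]; nlinarith [Real.pi_pos])
  rw [show 2 / Real.pi * (Real.pi * a / (2 * n)) = a / n by field_simp] at h
  unfold zl1
  gcongr

theorem zlm_bd {n : ℕ} {a : P} (ha : a ∈ inn n) : 0 < zlm n a ∧ zlm n a ≤ 8 := by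
  rw [inn, mem_product, mem_Ioo] at ha
  have h := zl1_ge ha.1.1.le ha.1.2.le
  have hN : (0 : ℝ) < n := by exact_mod_cast (by omega : 0 < n)
  have a0 : (0 : ℝ) < a.1 := by exact_mod_cast ha.1.1
  have : 0 < 4 * ((a.1 : ℝ) / n) ^ 2 := by positivity
  unfold zlm
  exact ⟨by linarith [(zs_l1 n a.2).1], by linarith [(zs_l1 n a.1).2, (zs_l1 n a.2).2]⟩

theorem zs_mul {c x y u v : ℝ} (hx : x ^ 2 ≤ u) (hy : y ^ 2 ≤ v) :
    (c * x * y) ^ 2 ≤ c ^ 2 * (u * v) := by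
  rw [mul_assoc, mul_pow, mul_pow]
  exact mul_le_mul_of_nonneg_left (mul_le_mul hx hy (sq_nonneg _) ((sq_nonneg _).trans hx))
    (sq_nonneg _)

theorem zsn_d0 (n : ℕ) (a p : P) : zsn n a p ^ 2 ≤ (2 / n) ^ 2 := by
  simpa [zsn] using zs_mul (c := 2 / n) (Real.sin_sq_le_one (Real.pi * a.1 * p.1 / n))
    (Real.sin_sq_le_one (Real.pi * a.2 * p.2 / n))

theorem zs_e1 (n : ℕ) (a p : P) :
    (zsn n a (p + (1, 0)) - zsn n a p) ^ 2 ≤ (2 / n) ^ 2 * zlm n a ∧
    (zsn n a (p + (0, 1)) - zsn n a p) ^ 2 ≤ (2 / n) ^ 2 * zlm n a := by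
  have h1 := zs_mul (c := 2 / n) (zs_d1 n a.1 p.1) (Real.sin_sq_le_one (Real.pi * a.2 * p.2 / n))
  have h2 := zs_mul (c := 2 / n) (Real.sin_sq_le_one (Real.pi * a.1 * p.1 / n)) (zs_d1 n a.2 p.2)
  have l1 := mul_nonneg (sq_nonneg (2 / (n : ℝ))) (zs_l1 n a.1).1
  have l2 := mul_nonneg (sq_nonneg (2 / (n : ℝ))) (zs_l1 n a.2).1
  simp only [zsn, zlm, Prod.fst_add, Prod.snd_add, add_zero]
  push_cast
  exact ⟨by nlinarith, by nlinarith⟩

theorem zsn_d1 (n : ℕ) (a x : P) (d : Fin 4) : dg (zsn n a) x d ^ 2 ≤ (2 / n) ^ 2 * zlm n a := by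
  have e0 : x + (1, 1) = x + (1, 0) + (0, 1) := by ext <;> simp
  have e1 : x + (1, 1) = x + (0, 1) + (1, 0) := by ext <;> simp
  have e2 : x + (0, 0) = x := by ext <;> simp
  fin_cases d
  · show (zsn n a (x + (1, 1)) - zsn n a (x + (1, 0))) ^ 2 ≤ _
    rw [e0]; exact (zs_e1 n a _).2
  · show (zsn n a (x + (0, 1)) - zsn n a (x + (1, 1))) ^ 2 ≤ _
    rw [e1, ← neg_sub, neg_sq]; exact (zs_e1 n a _).1
  · show (zsn n a (x + (0, 0)) - zsn n a (x + (0, 1))) ^ 2 ≤ _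
    rw [e2, ← neg_sub, neg_sq]; exact (zs_e1 n a _).2
  · show (zsn n a (x + (1, 0)) - zsn n a (x + (0, 0))) ^ 2 ≤ _
    rw [e2]; exact (zs_e1 n a _).1

theorem zsn_d2 (n : ℕ) (a p : P) :
    (zsn n a (p + (1, 0)) - 2 * zsn n a p + zsn n a (p - (1, 0))) ^ 2 ≤ (2 / n) ^ 2 * zlm n a ^ 2 ∧
    (zsn n a (p + (0, 1)) - 2 * zsn n a p + zsn n a (p - (0, 1))) ^ 2 ≤ (2 / n) ^ 2 * zlm n a ^ 2 ∧
    (zsn n a (p + (1, 1)) - zsn n a (p + (1, 0)) - zsn n a (p + (0, 1)) + zsn n a p) ^ 2 ≤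
      (2 / n) ^ 2 * zlm n a ^ 2 := by
  have l1 := (zs_l1 n a.1).1
  have l2 := (zs_l1 n a.2).1
  have d0 := zsn_d0 n a p
  have c0 := sq_nonneg (2 / (n : ℝ))
  have key : ∀ l : ℝ, 0 ≤ l → l ≤ zlm n a → (-l * zsn n a p) ^ 2 ≤ (2 / n) ^ 2 * zlm n a ^ 2 := by
    intro l h0 h1
    rw [mul_pow, neg_sq, mul_comm]
    exact mul_le_mul d0 (pow_le_pow_left₀ h0 h1 2) (sq_nonneg _) c0
  refine ⟨?_, ?_, ?_⟩
  · refine le_trans (le_of_eq (congrArg (· ^ 2) ?_)) (key (zl1 n a.1) l1 (by unfold zlm; linarith))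
    simp only [zsn, Prod.fst_add, Prod.snd_add, Prod.fst_sub, Prod.snd_sub, add_zero, sub_zero]
    push_cast
    linear_combination (2 / n * Real.sin (Real.pi * a.2 * p.2 / n)) * zs_d2 n a.1 p.1
  · refine le_trans (le_of_eq (congrArg (· ^ 2) ?_)) (key (zl1 n a.2) l2 (by unfold zlm; linarith))
    simp only [zsn, Prod.fst_add, Prod.snd_add, Prod.fst_sub, Prod.snd_sub, add_zero, sub_zero]
    push_cast
    linear_combination (2 / n * Real.sin (Real.pi * a.1 * p.1 / n)) * zs_d2 n a.2 p.2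
  · refine le_trans (le_of_eq (congrArg (· ^ 2) ?_))
      ((zs_mul (c := 2 / n) (zs_d1 n a.1 p.1) (zs_d1 n a.2 p.2)).trans
        (mul_le_mul_of_nonneg_left (by unfold zlm; nlinarith [mul_nonneg l1 l2]) c0))
    simp only [zsn, Prod.fst_add, Prod.snd_add, add_zero]
    push_cast
    ring

end Pool.Agent.Lib.MP_9cc147_pr.Cx
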