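import Pool.Agent.Lib.MP_9cc147_pr.Cx.Z.Mode

/-! Gaussian weights. -/

open scoped Classical Topology
open Finset MeasureTheory ProbabilityTheory Filter

noncomputable section
namespace Pool.Agent.Lib.MP_9cc147_pr.Cx

theorem zgv_congr {n : ℕ} {q S S' : P → ℝ} (h : ∀ a ∈ inn n, S a = S' a) :
    zgv n q S = zgv n q S' := by
  ext θ
  rw [zgv, zgv, sum_congr rfl fun a ha => by rw [h a ha], prod_congr rfl fun a ha => by rw [h a ha]]

theorem t_zgau (h_u : S_u) : S_zgau := by
  intro L n J mu hn hmu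
  have h1 : 1 ≤ n := by omega
  have pp : PP = mu0 (gaussianReal 0 1) := by simp [PP, mu0]
  have hq : ∀ a ∈ inn n, 0 ≤ mu * zlm n a := fun a ha => mul_nonneg hmu (zlm_bd ha).1.le
  have hS : ∀ j, ∀ a ∈ inn n, 0 ≤ 1 / zlm n a - zrs (lev L j) (zlm n a) := fun j a ha => by
    have := (zrs_bd (lev L j) (zlm_bd ha).1 (zlm_bd ha).2).2
    linarith
  have step : ∀ {μ : Measure Om} {ζ s}, ZMode μ n ζ s → ∀ (F : Fld → ℂ) (c z : ℂ) (S : P → ℝ),
      (∀ a ∈ inn n, 0 ≤ S a) → (∀ θ, Dir n θ →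
        F (bg n z + cf θ) = c * zgv n (fun a => mu * zlm n a) S θ) → ∀ θ, Dir n θ →
      ∫ ω, F (bg n z + cf θ + cf (ζ ω)) ∂μ = c * zgv n (fun a => mu * zlm n a) (S + s) θ := by
    intro μ ζ s h F c z S S0 hF θ hθ
    have : ∀ ω, F (bg n z + cf θ + cf (ζ ω)) = c * zgv n (fun a => mu * zlm n a) S (θ + ζ ω) :=
      fun ω => by
        rw [← hF _ (zdir_add hθ (h.dir ω))]
        congr 1; ext p; simp [cf, add_assoc]
    simp only [this]
    rw [integral_const_mul, integral_complex_ofReal, h.quad hq S0]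
  have ex : ∀ z j θ, Dir n θ → Ex L n (VG n mu) j (bg n z + cf θ) =
      Complex.exp (-(mu / 2 : ℂ) * z ^ 2 * Rt n) * zgv n (fun a => mu * zlm n a)
        (fun a => 1 / zlm n a - zrs (lev L j) (zlm n a)) θ := fun z j => by
    induction j with
    | zero =>
      intro θ hθ
      rw [Ex, VG, pp, step (zmode_zw _ h1) (fun Θ => Complex.exp (-(mu / 2 : ℂ) * En Θ (box n)))
        (Complex.exp (-(mu / 2 : ℂ) * z ^ 2 * Rt n)) z 0 (fun _ _ => le_rfl) _ θ hθ,
        zgv_congr (S' := fun a => 1 / zlm n a - zrs (lev L 0) (zlm n a))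
          fun a _ => by simp [lev, zrs, zpn]]
      intro θ hθ
      simp only [zen_bg h_u hn hθ, zgv, Pi.zero_apply, mul_zero, add_zero, Real.one_rpow,
        prod_const_one, div_one, one_mul, mul_assoc, ← mul_sum]
      rw [Complex.ofReal_exp, ← Complex.exp_add]
      congr 1; push_cast; ring
    | succ j ih =>
      intro θ hθ
      refine (step (zmode_zeta L j h1) _ _ z _ (hS j) ih θ hθ).trans ?_
      rw [zgv_congr (S' := fun a => 1 / zlm n a - zrs (lev L (j + 1)) (zlm n a)) fun a ha => ?_]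
      simp only [Pi.add_apply, zrs_lev L j (zlm_bd ha).1.ne']
      ring
  have d0 : Dir n 0 := fun p => by simp
  refine ⟨fun z => ?_, zgv n (fun a => mu * zlm n a)
    fun a => 1 / zlm n a - zrs (lev L J) (zlm n a), ?_⟩
  · have := step (zmode_zr (lev L J) h1) _ _ z _ (hS J) (ex z J) 0 d0
    rw [show bg n z + cf 0 = bg n z by ext; simp [cf],
      zgv_congr (S' := fun a => 1 / zlm n a) fun a _ => by simp] at this
    rw [Tot, this]
    congr 2
    have e : ∀ a ∈ inn n, (1 + mu * zlm n a * (1 / zlm n a)) ^ (-(1 / 2) : ℝ) =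
        (1 + mu) ^ (-(1 / 2) : ℝ) := fun a ha => by
      rw [mul_assoc, mul_one_div_cancel (zlm_bd ha).1.ne', mul_one]
    have c : ((inn n).card : ℝ) = ((n : ℝ) - 1) ^ 2 := by
      have : ((n : ℤ) - 0 - 1).toNat = n - 1 := by omega
      rw [inn, card_product, Int.card_Ioo, this]
      push_cast [h1]; ring
    simp only [zgv, zhat, Pi.zero_apply, mul_zero, sum_const_zero, zero_pow two_ne_zero, neg_zero,
      zero_div, Real.exp_zero, mul_one]
    rw [prod_congr rfl e, prod_const, ← Real.rpow_natCast, ← Real.rpow_mul (by linarith), c]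
    congr 1; ring
  · have p1 : ∀ a ∈ inn n, 1 ≤ 1 + mu * zlm n a * (1 / zlm n a - zrs (lev L J) (zlm n a)) :=
      fun a ha => le_add_of_nonneg_right (mul_nonneg (hq a ha) (hS J a ha))
    have p0 := prod_pos (s := inn n) fun a ha =>
      Real.rpow_pos_of_pos (one_pos.trans_le (p1 a ha)) (-(1 / 2) : ℝ)
    simp only [zgv, show ∀ a, zhat n 0 a = 0 by simp [zhat], zero_pow two_ne_zero, mul_zero,
      sum_const_zero, neg_zero, zero_div, Real.exp_zero, mul_one]
    refine ⟨p0, fun θ hθ => ⟨?_, mul_le_of_le_one_right p0.le (Real.exp_le_one_iff.2 ?_), ?_⟩⟩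
    · have := ex 0 J θ hθ
      rw [show bg n 0 + cf θ = cf θ by ext; simp [bg]] at this
      simpa [zgv] using this
    · have := sum_nonneg (s := inn n) fun a ha => mul_nonneg
        (div_nonneg (hq a ha) (zero_le_one.trans (p1 a ha))) (sq_nonneg (zhat n θ a))
      linarith
    · rw [mul_comm, zene h1 hθ]
      refine mul_le_mul_of_nonneg_left (Real.exp_le_exp.2 ?_) p0.le
      have := sum_le_sum (s := inn n) fun a ha => mul_le_mul_of_nonneg_right
        (div_le_self (hq a ha) (p1 a ha)) (sq_nonneg (zhat n θ a))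
      simp only [mul_assoc mu, ← mul_sum] at this ⊢
      linarith

end Pool.Agent.Lib.MP_9cc147_pr.Cx
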